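import Pool.Agent.helper62.EN.SpecP
import Pool.Agent.helper74.RS.ESM

set_option autoImplicit false

/-!
# MP_07c750, row ksy:FNC (a nice fundamental domain, the two limits)
-/

open scoped MatrixGroups ContDiff Topology UpperHalfPlane ComplexConjugate
open UpperHalfPlane MeasureTheory Filter Set

namespace Pool.Agent.EN

open Pool.Agent.RS

/-- The tolerance tends to zero. -/
theorem FNC_e (p : ℕ) :
    Tendsto (fun m : ℕ => 8 * (1 / ((m : ℝ) + 24)) * (1 + Real.log p)) atTop (𝓝 0) := by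
  have h1 : Tendsto (fun m : ℕ => (m : ℝ) + 24) atTop atTop :=
    tendsto_atTop_add_const_right _ _ tendsto_natCast_atTop_atTop
  have h2 : Tendsto (fun m : ℕ => 1 / ((m : ℝ) + 24)) atTop (𝓝 0) := by
    have := tendsto_inv_atTop_zero.comp h1
    simpa [Function.comp_def, one_div] using this
  have h3 := (h2.const_mul 8).mul_const (1 + Real.log p)
  simpa using h3

theorem FNC_d (η : ℝ) (hη : 0 < η) : ∀ᶠ m : ℕ in atTop, (1 / ((m : ℝ) + 24)) ^ 2 ≤ η := by
  have h1 : Tendsto (fun m : ℕ => (m : ℝ) + 24) atTop atTop :=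
    tendsto_atTop_add_const_right _ _ tendsto_natCast_atTop_atTop
  have h2 : Tendsto (fun m : ℕ => 1 / ((m : ℝ) + 24)) atTop (𝓝 0) := by
    have := tendsto_inv_atTop_zero.comp h1
    simpa [Function.comp_def, one_div] using this
  have h3 := h2.pow 2
  have h4 : Tendsto (fun m : ℕ => (1 / ((m : ℝ) + 24)) ^ 2) atTop (𝓝 0) := by simpa using h3
  exact (h4.eventually (gt_mem_nhds hη)).mono fun m hm => le_of_lt hm

/-- A continuous function with values in `[0, 1]` is integrable. -/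
theorem FNC_int {Y : Type} [TopologicalSpace Y] [MeasurableSpace Y] [BorelSpace Y] (ρ : Measure Y)
    [IsFiniteMeasure ρ] (V : Y → ℝ) (hV : Continuous V) (h01 : ∀ x, 0 ≤ V x ∧ V x ≤ 1) :
    Integrable V ρ := by
  refine Integrable.of_bound hV.aestronglyMeasurable 1 (Eventually.of_forall fun x => ?_)
  rw [Real.norm_eq_abs, abs_of_nonneg (h01 x).1]
  exact (h01 x).2

/-- If `∫ V (pr x) dμ ≤ ∫ V dν` for the continuous `V` with values in `[0, 1]`, then `μ` has the image `ν`. -/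
theorem FNC_map {X Y : Type} [TopologicalSpace X] [MeasurableSpace X] [BorelSpace X]
    [TopologicalSpace Y] [MeasurableSpace Y] [BorelSpace Y] [CompactSpace Y] [T2Space Y]
    [SecondCountableTopology Y] (μ : Measure X) (ν : Measure Y) [IsProbabilityMeasure μ]
    [IsProbabilityMeasure ν] (q : X → Y) (hq : Continuous q)
    (H : ∀ V : Y → ℝ, Continuous V → (∀ x, 0 ≤ V x ∧ V x ≤ 1) → ∫ x, V (q x) ∂μ ≤ ∫ y, V y ∂ν) :
    μ.map q = ν := by
  have : IsProbabilityMeasure (μ.map q) := Measure.isProbabilityMeasure_map hq.aemeasurable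
  have hE : ∀ V : Y → ℝ, Continuous V → (∀ x, 0 ≤ V x ∧ V x ≤ 1) →
      ∫ x, V (q x) ∂μ = ∫ y, V y ∂ν := by
    intro V hV h01
    refine le_antisymm (H V hV h01) ?_
    have h1 := H (fun y => 1 - V y) (continuous_const.sub hV)
      (fun y => ⟨by linarith [(h01 y).2], by linarith [(h01 y).1]⟩)
    have i1 : Integrable V ν := FNC_int ν V hV h01
    have i2 : Integrable (fun x => V (q x)) μ :=
      FNC_int μ (fun x => V (q x)) (hV.comp hq) (fun x => h01 (q x))
    rw [integral_sub (integrable_const _) i1, integral_sub (integrable_const _) i2] at h1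
    simp only [integral_const, probReal_univ, smul_eq_mul, mul_one] at h1
    linarith
  have : TopologicalSpace.MetrizableSpace Y := TopologicalSpace.metrizableSpace_of_t3_secondCountable Y
  refine ext_of_forall_integral_eq_of_IsFiniteMeasure fun f => ?_
  rw [integral_map hq.aemeasurable f.continuous.aestronglyMeasurable]
  -- scale to `[0, 1]`
  set B : ℝ := ‖f‖ + 1 with hB
  have hB0 : 0 < B := by positivity
  have hf : ∀ y, |f y| ≤ B := fun y => by
    have := f.norm_coe_le_norm y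
    rw [Real.norm_eq_abs] at this
    linarith
  have hW := hE (fun y => (f y + B) / (2 * B)) ((f.continuous.add continuous_const).div_const _)
    (fun y => by
      have h1 := abs_le.1 (hf y)
      constructor
      · apply div_nonneg <;> linarith
      · rw [div_le_one (by linarith)]
        linarith)
  have j1 : Integrable (fun y => f y) ν := f.integrable ν
  have j2 : Integrable (fun x => f (q x)) μ := by
    refine Integrable.of_bound (f.continuous.comp hq).aestronglyMeasurable B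
      (Eventually.of_forall fun x => ?_)
    rw [Real.norm_eq_abs]
    exact hf _
  rw [integral_div, integral_div, integral_add j1 (integrable_const _),
    integral_add j2 (integrable_const _)] at hW
  simp only [integral_const, probReal_univ, smul_eq_mul, one_mul] at hW
  have h2 : (2 * B) ≠ 0 := by positivity
  field_simp at hW
  linarith

theorem FNC_proof (h1 : GMU_stmt) (h2 : PK2_stmt) (h3 : LM2_stmt) (h4 : XCY_stmt)
    (h5 : XNB_stmt) (h6 : XFL_stmt) (h7 : XTX_stmt) (h8 : XTM_stmt) : FNC_stmt := by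
  intro Γ F r N s φ β ν hΓ hF hr hφ hN hβ hν hlim
  obtain ⟨xc, xt, xs⟩ := h7 Γ hΓ
  obtain ⟨mc, mt, msc⟩ := h8 Γ hΓ
  obtain ⟨hflow, hpr, hmkX, -, hsX, hmkM, homM, hsM, -, -, -, heqM⟩ := h6 Γ
  obtain ⟨c, A, K, r0, hc, hV2⟩ := h2 Γ F hΓ hF
  have hδ0 : ∀ m : ℕ, 0 < 1 / ((m : ℝ) + 24) := fun m => by positivity
  have hδ1 : ∀ m : ℕ, 1 / ((m : ℝ) + 24) ≤ 1 / 24 := fun m => by
    apply one_div_le_one_div_of_le (by norm_num)
    have : (0 : ℝ) ≤ m := Nat.cast_nonneg m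
    linarith
  -- the limits of the packets
  have hg : ∀ m : ℕ, ∃ μ : Measure (XG Γ), IsProbabilityMeasure μ ∧ (∀ t, μ.map (fl Γ t) = μ) ∧
      (∀ (V : MG Γ → ℝ) (η a : ℝ), Continuous V → (∀ x, 0 ≤ V x ∧ V x ≤ 1) →
        (1 / ((m : ℝ) + 24)) ^ 2 ≤ η → η ≤ 1 / 20 →
        (∃ K' r1 : ℝ, 0 < K' ∧ ∀ r' : ℝ, r1 ≤ r' → ∀ (s' : ℝ) (ψ : ℍ → ℂ), |s' - r'| ≤ 1 →
          EigL Γ (1 / 4 + s' ^ 2) ψ → ∀ t : ℝ, 0 ≤ t → Real.exp t ≤ r' / K' →
          iR F (fun g => V (mkM Γ ((g * aM t) • I)) * ‖Wf (RS.pk r' (c m)) ψ g‖ ^ 2) ≤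
            A m / r' * ((∫ z in F, V (mkM Γ z) * ‖ψ z‖ ^ 2) + η * nn F ψ)) →
        Tendsto (fun k => (∑ j, ∫ z in F, V (mkM Γ z) * ‖φ k j z‖ ^ 2) / (N k : ℝ)) atTop (𝓝 a) →
        ∫ x, V (pr Γ x) ∂μ ≤ a + 5 * η) ∧
      ∀ (p : ℕ) (P : XG Γ → Fin p) (C : ℝ), Measurable P → 0 < C →
        (∀ (n : ℕ) (w : Fin n → Fin p), 1 ≤ n →
          (mX Γ F).real {x | ∀ i : Fin n, P ((fl Γ 1)^[i] x) = w i} ≤ C * Real.exp (-n)) →
        (∀ i, μ (frontier (P ⁻¹' {i})) = 0) → ∀ j : ℕ,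
          ((1 + β) / 2 - 8 * (1 / ((m : ℝ) + 24)) * (1 + Real.log p)) * j ≤ Hn μ (fl Γ 1) P j := by
    intro m
    obtain ⟨c1, c2, c3, c4, c5⟩ := hc m
    exact h1 Γ F r N s φ β (A m) (K m) (r0 m) (1 / ((m : ℝ) + 24)) (c m) hΓ hF hr hφ hN hβ c1 c2
      c3 c4 (hδ0 m) (hδ1 m) c5
  choose μs hμp hμi hμV hμH using hg
  obtain ⟨δ', C, hδ', hC, hcyl⟩ := h4 Γ F hΓ hF
  obtain ⟨μ, hp, hinv, hV, hKS⟩ := h3 (XG Γ) (fl Γ) μs (Ux Γ δ') ((1 + β) / 2)
    (fun m p => 8 * (1 / ((m : ℝ) + 24)) * (1 + Real.log p)) hflow hμp hμi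
    (fun x => h5 Γ δ' x hδ') FNC_e
    (fun m p P hP hsm hfr j => hμH m p P C hP hC (hcyl p P hP hsm) hfr j)
  refine ⟨μ, hp, hinv, ?_, hKS⟩
  -- the total mass of `ν`
  have hmass : ∀ k, ∀ j, ∫ z in F, ‖φ k j z‖ ^ 2 = 1 := by
    intro k j
    have e1 := (hφ k).2.2 j j
    rw [if_pos rfl] at e1
    have e2 : (fun z => φ k j z * (starRingEnd ℂ) (φ k j z)) = fun z => ((‖φ k j z‖ ^ 2 : ℝ) : ℂ) := by
      funext z
      rw [Complex.mul_conj, Complex.normSq_eq_norm_sq]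
    rw [e2, integral_complex_ofReal] at e1
    exact_mod_cast e1
  have hν1 : ν.real univ = 1 := by
    have e1 := hlim (fun _ => 1) continuous_const
    have e2 : (fun k => (∑ j, ∫ z in F, (fun _ : MG Γ => (1 : ℝ)) (mkM Γ z) * ‖φ k j z‖ ^ 2) / (N k : ℝ))
        = fun _ => (1 : ℝ) := by
      funext k
      have e3 : ∀ j, ∫ z in F, (fun _ : MG Γ => (1 : ℝ)) (mkM Γ z) * ‖φ k j z‖ ^ 2 = 1 := by
        intro j
        simp only [one_mul]
        exact hmass k j
      rw [Finset.sum_congr rfl fun j _ => e3 j]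
      rw [Finset.sum_const, Finset.card_univ, Fintype.card_fin, nsmul_eq_mul, mul_one]
      have : (N k : ℝ) ≠ 0 := by
        have := hN k
        positivity
      exact div_self this
    rw [e2] at e1
    have e4 := tendsto_nhds_unique e1 tendsto_const_nhds
    rw [integral_const, smul_eq_mul, mul_one] at e4
    exact e4
  have hνp : IsProbabilityMeasure ν := by
    refine ⟨?_⟩
    rw [measureReal_def] at hν1
    have := ENNReal.ofReal_toReal (measure_ne_top ν univ)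
    rw [← this, hν1, ENNReal.ofReal_one]
  -- `C²` functions
  have hkey : ∀ V' : MG Γ → ℝ, Continuous V' → (∀ x, 0 ≤ V' x ∧ V' x ≤ 1) →
      QU.CD 2 (fun z => V' (mkM Γ z)) → ∫ x, V' (pr Γ x) ∂μ ≤ ∫ x, V' x ∂ν := by
    intro V' hV' h01 hCD
    refine hV (fun x => V' (pr Γ x)) _ (hV'.comp hpr) fun ε hε => ?_
    have hη0 : 0 < min (ε / 5) (1 / 20) := lt_min (by linarith) (by norm_num)
    obtain ⟨m₀, hm₀⟩ := hV2 (fun z => V' (mkM Γ z))
      ⟨hV'.comp hmkM, fun γ z => by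
        have : mkM Γ (γ • z) = mkM Γ z := ((heqM z (γ • z)).2 ⟨γ, rfl⟩).symm
        exact congrArg V' this⟩ hCD (fun z => (h01 _).1) (fun z => (h01 _).2) _ hη0
    filter_upwards [FNC_d _ hη0, eventually_ge_atTop m₀] with m hm1 hm2
    have := hμV m V' _ (∫ x, V' x ∂ν) hV' h01 hm1 (min_le_right _ _) (hm₀ m hm2) (hlim V' hV')
    have h5 : 5 * min (ε / 5) (1 / 20) ≤ ε := by
      have := min_le_left (ε / 5) (1 / 20 : ℝ)
      linarith
    linarith
  refine FNC_map μ ν (pr Γ) hpr fun V hVc h01 => ?_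
  refine le_of_forall_pos_le_add fun ε hε => ?_
  obtain ⟨h', hi, hCD, happ, h01'⟩ := RS.ESM Γ (fun z => V (mkM Γ z)) 0 1 (ε / 2) hΓ
    ⟨hVc.comp hmkM, fun γ z => by
      have : mkM Γ (γ • z) = mkM Γ z := ((heqM z (γ • z)).2 ⟨γ, rfl⟩).symm
      exact congrArg V this⟩ (fun z => h01 _) (by linarith)
  have hlift : ∀ a b : ℍ, (MulAction.orbitRel Γ ℍ) a b → h' a = h' b := by
    rintro a b ⟨γ, hγ⟩
    have hγ' : γ • b = a := hγ
    rw [← hγ', hi.2 γ b]
  set V' : MG Γ → ℝ := Quotient.lift h' hlift with hV'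
  have hV'c : Continuous V' := hi.1.quotient_lift hlift
  have hV'm : ∀ z, V' (mkM Γ z) = h' z := fun z => rfl
  have hV'01 : ∀ x, 0 ≤ V' x ∧ V' x ≤ 1 := by
    intro x
    obtain ⟨z, rfl⟩ := hsM x
    rw [hV'm]
    exact h01' z
  have hV'a : ∀ x, |V' x - V x| ≤ ε / 2 := by
    intro x
    obtain ⟨z, rfl⟩ := hsM x
    rw [hV'm]
    exact happ z
  have k1 := hkey V' hV'c hV'01 hCD
  have i1 : Integrable (fun x => V (pr Γ x)) μ := FNC_int μ _ (hVc.comp hpr) fun x => h01 _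
  have i2 : Integrable (fun x => V' (pr Γ x)) μ := FNC_int μ _ (hV'c.comp hpr) fun x => hV'01 _
  have i3 : Integrable V ν := FNC_int ν _ hVc h01
  have i4 : Integrable V' ν := FNC_int ν _ hV'c hV'01
  have k2 : ∫ x, V (pr Γ x) ∂μ ≤ ∫ x, V' (pr Γ x) ∂μ + ε / 2 := by
    have e1 : ∫ x, (V' (pr Γ x) + ε / 2) ∂μ = ∫ x, V' (pr Γ x) ∂μ + ε / 2 := by
      rw [integral_add i2 (integrable_const _), integral_const, probReal_univ, one_smul]
    rw [← e1]
    refine integral_mono i1 (i2.add (integrable_const _)) fun x => ?_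
    have := (abs_le.1 (hV'a (pr Γ x))).1
    show V (pr Γ x) ≤ V' (pr Γ x) + ε / 2
    linarith
  have k3 : ∫ x, V' x ∂ν ≤ ∫ x, V x ∂ν + ε / 2 := by
    have e1 : ∫ x, (V x + ε / 2) ∂ν = ∫ x, V x ∂ν + ε / 2 := by
      rw [integral_add i3 (integrable_const _), integral_const, probReal_univ, one_smul]
    rw [← e1]
    refine integral_mono i4 (i3.add (integrable_const _)) fun x => ?_
    have := (abs_le.1 (hV'a x)).2
    show V' x ≤ V x + ε / 2
    linarith
  linarith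

end Pool.Agent.EN
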