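import Pool.Agent.helper80.EN.BAS

set_option autoImplicit false

namespace Pool.Agent.helper80.EN

open Subgroup

universe u

section

variable {G : Type u} [Group G] {Ω : Type u} [MulAction G Ω]

/-- The periodic points of `g`. -/
def perSet (Ω : Type u) [MulAction G Ω] (g : G) : Set Ω := {ω | ∃ k : ℕ, 0 < k ∧ g ^ k • ω = ω}

lemma perSet_conj (g h : G) (ω : Ω) : ω ∈ perSet Ω (h⁻¹ * g * h) ↔ h • ω ∈ perSet Ω g := by
  constructor
  · rintro ⟨k, hk, h1⟩
    refine ⟨k, hk, ?_⟩
    have h2 : h • ((h⁻¹ * g * h) ^ k • ω) = h • ω := by rw [h1]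
    have h3 : (h⁻¹ * g * h) ^ k = h⁻¹ * g ^ k * h := by
      have := conj_pow (i := k) (a := h⁻¹) (b := g)
      simpa using this
    rw [h3, mul_smul, mul_smul, smul_inv_smul] at h2
    exact h2
  · rintro ⟨k, hk, h1⟩
    refine ⟨k, hk, ?_⟩
    have h3 : (h⁻¹ * g * h) ^ k = h⁻¹ * g ^ k * h := by
      have := conj_pow (i := k) (a := h⁻¹) (b := g)
      simpa using this
    rw [h3, mul_smul, mul_smul, h1, inv_smul_smul]

lemma perSet_smul (g : G) (ω : Ω) : ω ∈ perSet Ω g ↔ g • ω ∈ perSet Ω g := by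
  have := perSet_conj g g ω
  rwa [show g⁻¹ * g * g = g by group] at this

/-- a finite set that is invariant under `c` consists of periodic points of `c` -/
lemma subset_perSet {A : Set Ω} (hA : A.Finite) (c : G) (hc : ∀ ω ∈ A, c • ω ∈ A) :
    A ⊆ perSet Ω c := by
  intro ω hω
  have hall : ∀ k : ℕ, c ^ k • ω ∈ A := by
    intro k
    induction k with
    | zero => simpa using hω
    | succ k ih => rw [pow_succ', mul_smul]; exact hc _ ih
  obtain ⟨i, j, hij, h⟩ : ∃ i j : ℕ, i < j ∧ c ^ i • ω = c ^ j • ω := by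
    have : ¬ Function.Injective (fun k : ℕ => (⟨c ^ k • ω, hall k⟩ : A)) := by
      have := hA.to_subtype
      exact not_injective_infinite_finite _
    rw [Function.Injective] at this
    push Not at this
    obtain ⟨i, j, h1, h2⟩ := this
    have h1' : c ^ i • ω = c ^ j • ω := congrArg Subtype.val h1
    rcases lt_or_gt_of_ne h2 with h | h
    · exact ⟨i, j, h, h1'⟩
    · exact ⟨j, i, h, h1'.symm⟩
  refine ⟨j - i, by omega, ?_⟩
  have h2 : c ^ i • (c ^ (j - i) • ω) = c ^ i • ω := by
    rw [← mul_smul, ← pow_add, show i + (j - i) = j by omega, h]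
  exact smul_left_cancel _ h2

/-- If `[x, _n g] = 1` and `g` has finitely many periodic points then `x` permutes them. -/
theorem perSet_invariant (x g : G) (hfin : (perSet Ω g).Finite) (n : ℕ) (hn : icom x g n = 1) :
    ∀ ω : Ω, ω ∈ perSet Ω g ↔ x • ω ∈ perSet Ω g := by
  have key : ∀ j ≤ n, ∀ ω : Ω, ω ∈ perSet Ω g ↔ icom x g (n - j) • ω ∈ perSet Ω g := by
    intro j
    induction j with
    | zero =>
      intro _ ω
      rw [Nat.sub_zero, hn, one_smul]
    | succ j ih =>
      intro hj
      have ih' := ih (by omega)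
      set y := icom x g (n - (j + 1)) with hy
      have hsucc : icom x g (n - j) = com y g := by
        rw [show n - j = (n - (j + 1)) + 1 by omega]
        rfl
      rw [hsucc] at ih'
      -- `c = y⁻¹ g y = g (com y g)⁻¹`
      have hc : y⁻¹ * g * y = g * (com y g)⁻¹ := by
        unfold com
        group
      have hinv : ∀ ω : Ω, ω ∈ perSet Ω g → (com y g)⁻¹ • ω ∈ perSet Ω g := by
        intro ω hω
        rw [ih' ((com y g)⁻¹ • ω), smul_inv_smul]
        exact hω
      have h1 : perSet Ω g ⊆ perSet Ω (y⁻¹ * g * y) := by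
        refine subset_perSet hfin _ fun ω hω => ?_
        rw [hc, mul_smul]
        exact (perSet_smul g _).1 (hinv ω hω)
      have h2 : ∀ ω ∈ perSet Ω g, y • ω ∈ perSet Ω g := fun ω hω =>
        (perSet_conj g y ω).1 (h1 hω)
      have h3 : (fun ω : Ω => y • ω) '' perSet Ω g = perSet Ω g := by
        apply Set.eq_of_subset_of_ncard_le
        · rintro _ ⟨ω, hω, rfl⟩
          exact h2 ω hω
        · rw [Set.ncard_image_of_injective _ (MulAction.injective y)]
        · exact hfin
      intro ω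
      refine ⟨h2 ω, fun h => ?_⟩
      rw [← h3] at h
      obtain ⟨ω', h4, h5⟩ := h
      rwa [← MulAction.injective y h5]
  intro ω
  have := key n le_rfl ω
  rwa [Nat.sub_self] at this

end

/-- If every nonempty open set contains a nonempty finite set of the form `Per(g)` then right Engel
elements act trivially. -/
theorem rightEngel_trivial (G Ω : Type u) [Group G] [TopologicalSpace Ω] [T2Space Ω] [MulAction G Ω]
    [ContinuousConstSMul G Ω]
    (h : ∀ U : Set Ω, IsOpen U → U.Nonempty →
      ∃ g : G, (perSet Ω g).Finite ∧ (perSet Ω g).Nonempty ∧ perSet Ω g ⊆ U)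
    (a : G) (ha : RightEngel a) (ω : Ω) : a • ω = ω := by
  by_contra hne
  obtain ⟨U, W, hU, hW, hωU, hωW, hUW⟩ := t2_separation (Ne.symm hne)
  have hcont : Continuous (fun x : Ω => a • x) := continuous_const_smul a
  obtain ⟨g, hfin, ⟨x, hx⟩, hsub⟩ := h (U ∩ (fun x : Ω => a • x) ⁻¹' W)
    (hU.inter (hW.preimage hcont)) ⟨ω, hωU, hωW⟩
  obtain ⟨n, hn⟩ := ha g
  have h1 : a • x ∈ perSet Ω g := (perSet_invariant a g hfin n hn x).1 hx
  have h2 : a • x ∈ U := (hsub h1).1
  have h3 : a • x ∈ W := (hsub hx).2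
  exact Set.disjoint_left.1 hUW h2 h3

end Pool.Agent.helper80.EN
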