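import Pool.Agent.helper80.EN.Spec

/-!
# Relative version of MAI: `a` is only assumed to be Engel on `K` (proof: helper95, row MAI)
-/

set_option autoImplicit false

namespace Pool.Agent.helper80.EN

open Subgroup

universe u

/-- elements of the Hirsch-Plotkin radical of a normal subgroup are in that of the group -/
theorem HP_of_normal (hHPR : HPR_stmt.{u}) (hTRF : TRF_stmt.{u}) (T : Type u) [Group T]
    (K : Subgroup T) [K.Normal] (x : K) (hx : x ∈ HP K) : (x : T) ∈ HP T := by
  obtain ⟨-, hKloc, hKmax, hKchar⟩ := hHPR K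
  obtain ⟨-, -, hTmax, -⟩ := hHPR T
  have hmapN : ((HP K).map K.subtype).Normal := inferInstance
  have hmapL : LocNilp ((HP K).map K.subtype) := (hTRF K).2.1 T K.subtype _ hKloc
  exact hTmax _ hmapN hmapL ⟨x, hx, rfl⟩

theorem MAR (hSTE : STE_stmt.{u}) (hLOC : LOC_stmt.{u}) (hHPR : HPR_stmt.{u})
    (hTRF : TRF_stmt.{u}) (T : Type u) [Group T] (K : Subgroup T) [K.Normal] (hK : InL K) (a : T)
    (ha : EngelOn K a) (k : T) (hk : k ∈ K) : com k a ∈ HP T := by
  -- the property `P` for `K`
  have hgood : Good K := by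
    apply hSTE K hK K (MonoidHom.id K)
    intro B _ α _
    have hsub : Subsingleton (MonoidHom.id K).ker := by
      refine ⟨fun x y => Subtype.ext ?_⟩
      have hx : (x : K) = 1 := x.2
      have hy : (y : K) = 1 := y.2
      rw [hx, hy]
    have hsubB : Subsingleton B := ⟨fun x y => Subtype.ext (Subsingleton.elim _ _)⟩
    have hsubH : Subsingleton (Bra α) := ⟨fun x y => Subtype.ext (Subsingleton.elim _ _)⟩
    apply (hTRF B).2.2.2.2.1
    infer_instance
  have hP : P K := hLOC K hgood
  -- conjugation by `a`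
  let α : MulAut K := MulAut.conjNormal a⁻¹
  have hα : ∀ b : K, ((α b : K) : T) = a⁻¹ * b * a := by
    intro b
    simp only [α, MulAut.conjNormal_apply, inv_inv]
  have hdel : ∀ b : K, ((del α b : K) : T) = com (b : T) a := by
    intro b
    simp only [del, com, Subgroup.coe_mul, InvMemClass.coe_inv, hα]
    group
  have hiter : ∀ (n : ℕ) (b : K), (((del α)^[n] b : K) : T) = icom (b : T) a n := by
    intro n
    induction n with
    | zero => intro b; rfl
    | succ n ih =>
      intro b
      rw [Function.iterate_succ_apply', hdel, ih]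
      rfl
  have hEng : EngelAut α := by
    intro b
    obtain ⟨n, hn⟩ := ha (b : T) b.2
    refine ⟨n, Subtype.ext ?_⟩
    rw [hiter, hn]
    rfl
  have hloc : LocNilp (Bra α) := hP α hEng
  have hnorm : (Bra α).Normal := by
    have key : ∀ c : K, ∀ x ∈ Bra α, c * x * c⁻¹ ∈ Bra α := by
      intro c x hx
      induction hx using Subgroup.closure_induction with
      | mem x hx =>
        obtain ⟨b, rfl⟩ := hx
        have h1 : c * del α b * c⁻¹ = del α (b * c⁻¹) * (del α c⁻¹)⁻¹ := by
          simp only [del, map_mul, map_inv]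
          group
        rw [h1]
        exact (Bra α).mul_mem (subset_closure ⟨_, rfl⟩) ((Bra α).inv_mem (subset_closure ⟨_, rfl⟩))
      | one => simp
      | mul x y _ _ hx hy =>
        have h1 : c * (x * y) * c⁻¹ = (c * x * c⁻¹) * (c * y * c⁻¹) := by group
        rw [h1]
        exact (Bra α).mul_mem hx hy
      | inv x _ hx =>
        have h1 : c * x⁻¹ * c⁻¹ = (c * x * c⁻¹)⁻¹ := by group
        rw [h1]
        exact (Bra α).inv_mem hx
    exact ⟨fun x hx c => key c x hx⟩
  obtain ⟨-, hKloc, hKmax, hKchar⟩ := hHPR K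
  have hle : Bra α ≤ HP K := hKmax _ hnorm hloc
  obtain ⟨-, -, hTmax, -⟩ := hHPR T
  have hmapN : ((HP K).map K.subtype).Normal := inferInstance
  have hmapL : LocNilp ((HP K).map K.subtype) := (hTRF K).2.1 T K.subtype _ hKloc
  have hle2 := hTmax _ hmapN hmapL
  apply hle2
  refine ⟨del α ⟨k, hk⟩, hle (subset_closure ⟨_, rfl⟩), ?_⟩
  exact hdel ⟨k, hk⟩

end Pool.Agent.helper80.EN
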