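import Pool.Agent.helper80.EN.Spec

set_option autoImplicit false

namespace Pool.Agent.helper80.EN

open Subgroup

universe u

variable {G L : Type u} [Group G] [Group L]

theorem fg_map (f : G →* L) {H : Subgroup G} (h : H.FG) : (H.map f).FG := by
  classical
  obtain ⟨S, hS⟩ := h
  refine ⟨S.image f, ?_⟩
  rw [Finset.coe_image, ← MonoidHom.map_closure, hS]

theorem LocNilp.mono {H K : Subgroup G} (h : H ≤ K) (hK : LocNilp K) : LocNilp H :=
  fun M hM hMH => hK M hM (hMH.trans h)

/-- A finitely generated subgroup of an image is the image of a finitely generated subgroup. -/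
theorem exists_fg_map_eq (f : G →* L) (H : Subgroup G) (M : Subgroup L) (hM : M.FG)
    (hMH : M ≤ H.map f) : ∃ K : Subgroup G, K.FG ∧ K ≤ H ∧ K.map f = M := by
  classical
  obtain ⟨S, hS⟩ := hM
  have h1 : ∀ s ∈ S, ∃ k ∈ H, f k = s := by
    intro s hs
    exact hMH (by rw [← hS]; exact subset_closure hs)
  choose! k hk hk' using h1
  refine ⟨closure ((S.image k : Finset G) : Set G), ⟨S.image k, rfl⟩, ?_, ?_⟩
  · rw [closure_le]
    intro x hx
    simp only [Finset.coe_image, Set.mem_image, Finset.mem_coe] at hx
    obtain ⟨s, hs, rfl⟩ := hx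
    exact hk s hs
  · rw [MonoidHom.map_closure, ← hS, Finset.coe_image]
    congr 1
    ext y
    simp only [Set.mem_image, Finset.mem_coe, exists_exists_and_eq_and]
    constructor
    · rintro ⟨s, hs, rfl⟩
      rw [hk' s hs]; exact hs
    · intro hy
      exact ⟨y, hy, hk' y hy⟩

theorem isNilpotent_map (f : G →* L) {K : Subgroup G} (h : Group.IsNilpotent K) :
    Group.IsNilpotent (K.map f) :=
  Group.nilpotent_of_surjective (f.subgroupMap K) (f.subgroupMap_surjective K)

theorem LocNilp.map (f : G →* L) {H : Subgroup G} (h : LocNilp H) : LocNilp (H.map f) := by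
  intro M hM hMH
  obtain ⟨K, hK, hKH, rfl⟩ := exists_fg_map_eq f H M hM hMH
  exact isNilpotent_map f (h K hK hKH)

theorem isNilpotent_of_map (f : G →* L) (hf : Function.Injective f) {K : Subgroup G}
    (h : Group.IsNilpotent (K.map f)) : Group.IsNilpotent K := by
  have e : K ≃* K.map f := K.equivMapOfInjective f hf
  exact Group.nilpotent_of_mulEquiv e.symm

theorem LocNilp.of_map (f : G →* L) (hf : Function.Injective f) {H : Subgroup G}
    (h : LocNilp (H.map f)) : LocNilp H := by
  intro M hM hMH
  exact isNilpotent_of_map f hf (h (M.map f) (fg_map f hM) (map_mono hMH))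

theorem LocNilp.comap (f : G →* L) (hf : Function.Injective f) {H : Subgroup L}
    (h : LocNilp H) : LocNilp (H.comap f) := by
  intro M hM hMH
  exact isNilpotent_of_map f hf (h (M.map f) (fg_map f hM) (map_le_iff_le_comap.2 hMH))

theorem LocNilp.of_isNilpotent {H : Subgroup G} (h : Group.IsNilpotent H) : LocNilp H := by
  intro M _ hMH
  have hi : Function.Injective (inclusion hMH) := inclusion_injective hMH
  have e : M ≃* (inclusion hMH).range := MonoidHom.ofInjective hi
  have := h
  exact Group.nilpotent_of_mulEquiv e.symm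

theorem LocNilp.isNilpotent {H : Subgroup G} (hf : H.FG) (h : LocNilp H) : Group.IsNilpotent H :=
  h H hf le_rfl

theorem locNilp_iff_map_subtype {H : Subgroup G} (K : Subgroup H) :
    LocNilp K ↔ LocNilp (K.map H.subtype) :=
  ⟨fun h => h.map _, fun h => LocNilp.of_map _ H.subtype_injective h⟩

theorem TRF : TRF_stmt.{u} := by
  intro G _
  exact ⟨fun H K h hK => hK.mono h, fun L _ f H h => h.map f,
    fun L _ f H hf h => LocNilp.of_map f hf h, fun L _ f H hf h => LocNilp.comap f hf h,
    fun H h => LocNilp.of_isNilpotent h, fun H hf h => h.isNilpotent hf,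
    fun H K => locNilp_iff_map_subtype K⟩

end Pool.Agent.helper80.EN
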