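import Mathlib

/-!
# Engel elements and the Hirsch-Plotkin radical (MP_43ab4e_al): definitions and row statements

Conventions: `[x, y] = x⁻¹ y⁻¹ x y`, `[x, _0 y] = x`, `[x, _(k+1) y] = [[x, _k y], y]`.

THEOREM.  Let `InL` be the smallest class of groups which contains the linear groups and is closed
under injective images (subgroups, isomorphism), extensions and the local closure (directed unions).
It contains all elementary amenable groups.  If `G` is in `InL` then the left Engel elements of `G`
are the elements of the Hirsch-Plotkin radical `HP G`, and all right Engel elements are in `HP G`.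
-/

set_option autoImplicit false

namespace Pool.Agent.helper80.EN

open Subgroup

universe u

section Defs

variable {G : Type u} [Group G]

/-- The commutator `[x, y] = x⁻¹ y⁻¹ x y`. -/
def com (x y : G) : G := x⁻¹ * y⁻¹ * x * y

/-- The iterated commutator `[x, _n y]`. -/
def icom (x y : G) : ℕ → G
  | 0 => x
  | n + 1 => com (icom x y n) y

/-- Left Engel elements: for every `g` there is `n` with `[g, _n a] = 1`. -/
def LeftEngel (a : G) : Prop := ∀ g : G, ∃ n, icom g a n = 1

/-- Right Engel elements: for every `g` there is `n` with `[a, _n g] = 1`. -/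
def RightEngel (a : G) : Prop := ∀ g : G, ∃ n, icom a g n = 1

/-- Right `n`-Engel elements. -/
def RightNEngel (n : ℕ) (a : G) : Prop := ∀ g : G, icom a g n = 1

/-- `H` is locally nilpotent: its finitely generated subgroups are nilpotent. -/
def LocNilp (H : Subgroup G) : Prop := ∀ K : Subgroup G, K.FG → K ≤ H → Group.IsNilpotent K

/-- `a` is left Engel on the subgroup `N`. -/
def EngelOn (N : Subgroup G) (a : G) : Prop := ∀ x ∈ N, ∃ n, icom x a n = 1

/-- The subgroup `[K, a]` generated by the `[k, a]` with `k` in `K`. -/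
def bra (K : Subgroup G) (a : G) : Subgroup G := closure {x | ∃ k ∈ K, x = com k a}

/-- `δ(b) = b⁻¹ α(b)`; this is `[b, a]` when `α` is conjugation by `a`. -/
def del (α : MulAut G) (b : G) : G := b⁻¹ * α b

/-- Every element is killed by a power of `δ`. -/
def EngelAut (α : MulAut G) : Prop := ∀ b : G, ∃ n : ℕ, (del α)^[n] b = 1

/-- `[G, α]`. -/
def Bra (α : MulAut G) : Subgroup G := closure (Set.range (del α))

end Defs

/-- The Hirsch-Plotkin radical: the join of all normal locally nilpotent subgroups. -/
def HP (G : Type u) [Group G] : Subgroup G := sSup {N : Subgroup G | N.Normal ∧ LocNilp N}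

/-- The property `P`: `[B, α]` is locally nilpotent for all Engel automorphisms `α`. -/
def P (B : Type u) [Group B] : Prop := ∀ α : MulAut B, EngelAut α → LocNilp (Bra α)

/-- All finitely generated subgroups have `P`. -/
def Good (K : Type u) [Group K] : Prop := ∀ B : Subgroup K, B.FG → P B

/-- The smallest class of groups that contains the linear groups and is closed under groups with an
injective homomorphism into a member, extensions, and groups all of whose finite subsets lie in a
subgroup which is a member (directed unions). -/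
inductive InL : (G : Type u) → [Group G] → Prop
  | linear {G : Type u} [Group G] (F : Type u) [Field F] (n : ℕ) (f : G →* GL (Fin n) F)
      (hf : Function.Injective f) : InL G
  | sub {G H : Type u} [Group G] [Group H] (f : G →* H) (hf : Function.Injective f) (h : InL H) :
      InL G
  | ext {G : Type u} [Group G] (N : Subgroup G) [N.Normal] (h1 : InL N) (h2 : InL (G ⧸ N)) : InL G
  | union {G : Type u} [Group G] (S : Finset G → Subgroup G) (hS : ∀ s : Finset G, (s : Set G) ⊆ S s)
      (h : ∀ s, InL (S s)) : InL G

/-- Elementary amenable groups: the smallest class of groups that contains the finite and the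
abelian groups and is closed under subgroups, quotients, extensions and directed unions. -/
inductive EG : (G : Type u) → [Group G] → Prop
  | finite {G : Type u} [Group G] (h : Finite G) : EG G
  | abelian {G : Type u} [Group G] (h : ∀ a b : G, a * b = b * a) : EG G
  | sub {G H : Type u} [Group G] [Group H] (f : G →* H) (hf : Function.Injective f) (h : EG H) :
      EG G
  | quot {G H : Type u} [Group G] [Group H] (f : G →* H) (hf : Function.Surjective f) (h : EG G) :
      EG H
  | ext {G : Type u} [Group G] (N : Subgroup G) [N.Normal] (h1 : EG N) (h2 : EG (G ⧸ N)) : EG G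
  | union {G : Type u} [Group G] (S : Finset G → Subgroup G) (hS : ∀ s : Finset G, (s : Set G) ⊆ S s)
      (h : ∀ s, EG (S s)) : EG G

/-- Homomorphisms to `GL_n` over finite fields separate the points of `B`. -/
def ResLin (n : ℕ) (B : Type u) [Group B] : Prop :=
  ∀ b : B, b ≠ 1 → ∃ (k : Type u) (_ : Field k) (_ : Finite k) (ρ : B →* GL (Fin n) k), ρ b ≠ 1

/-! ## Row statements -/

/-- BAS: calculation rules (all easy; `a^g = g⁻¹ a g`). The last one: `T = K<a>`, `g = k a^i`,
`[k a^i, a] = [k, a]^(a^i)`, and `[k, a]` is in `K`. -/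
def BAS_stmt : Prop := ∀ (G : Type u) [Group G],
  (∀ x y g : G, ∀ n, icom (g⁻¹ * x * g) (g⁻¹ * y * g) n = g⁻¹ * icom x y n * g) ∧
  (∀ (H : Type u) [Group H] (f : G →* H) (x y : G) (n : ℕ), f (icom x y n) = icom (f x) (f y) n) ∧
  (∀ (x y : G) (m n : ℕ), icom x y (m + n) = icom (icom x y m) y n) ∧
  (∀ (y : G) (n : ℕ), icom 1 y n = 1) ∧
  (∀ (K : Subgroup G) (a : G), K.Normal → K ⊔ zpowers a = ⊤ → EngelOn K a → LeftEngel a)

/-- TRF: transfer of `LocNilp`: subgroups, images, injective preimages, nilpotent subgroups,
normal closures of sets of generators are not needed. -/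
def TRF_stmt : Prop := ∀ (G : Type u) [Group G],
  (∀ H K : Subgroup G, H ≤ K → LocNilp K → LocNilp H) ∧
  (∀ (L : Type u) [Group L] (f : G →* L) (H : Subgroup G), LocNilp H → LocNilp (H.map f)) ∧
  (∀ (L : Type u) [Group L] (f : G →* L) (H : Subgroup G), Function.Injective f →
    LocNilp (H.map f) → LocNilp H) ∧
  (∀ (L : Type u) [Group L] (f : G →* L) (H : Subgroup L), Function.Injective f →
    LocNilp H → LocNilp (H.comap f)) ∧
  (∀ H : Subgroup G, Group.IsNilpotent H → LocNilp H) ∧
  (∀ H : Subgroup G, H.FG → LocNilp H → Group.IsNilpotent H) ∧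
  (∀ (H : Subgroup G) (K : Subgroup H), LocNilp K ↔ LocNilp (K.map H.subtype))

/-- FIT (Fitting). Proof: `A 0 = ⊤`, `A (a+1) = M.lowerCentralSeries a`, `B` likewise for `N`, all normal.
`D n = ⨆ (a + b = n), A a ⊓ B b` satisfies `D 1 = M ⊔ N = ⊤` and `[D n, ⊤] ≤ D (n+1)` because
`[A a ⊓ B b, M] ≤ A (a+1) ⊓ B b` and the same for `N`; `D (c + d + 2) = ⊥` for the classes `c`, `d`. -/
def FIT_stmt : Prop := ∀ (G : Type u) [Group G] (M N : Subgroup G), M.Normal → N.Normal →
  Group.IsNilpotent M → Group.IsNilpotent N → M ⊔ N = ⊤ → Group.IsNilpotent G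

/-- RLE (Heineken): if `a` is right Engel then `a⁻¹` is left Engel. Proof: with `b = a⁻¹`,
`[x, b] = (b⁻¹)^x b` and `[x, b, b] = [(b⁻¹)^x b, b] = [(b⁻¹)^x, b]^b = [a^x, b]^b`, so by induction
`[x, _(n+1) b] = [a^x, _n b]^b = ([a, _n b^(x⁻¹)]^x)^b`. -/
def RLE_stmt : Prop := ∀ (G : Type u) [Group G] (a : G), RightEngel a → LeftEngel a⁻¹

/-- NB: `B` finitely generated nilpotent, normalised by `a`, `a` Engel on `B`: `B<a>` is nilpotent.
Proof: we may assume that `B` is normal and `T = B<a>`.  Induction on the class of `B`.  `Z = Z(B)` is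
finitely generated (helper14/FA/MaxCond.lean: finitely generated nilpotent groups satisfy the
maximal condition), normal in `T`, and `z ↦ [z, a]` is an endomorphism `δ` of the abelian group `Z`
with every element killed by a power, so `δ^K = 1` on `Z`.  `Z_j = δ^j(Z)` is normal in `T` with
`[Z_j, T] ≤ Z_(j+1)` (as `[z, b a^i] = [z, a^i]`), and `T/Z` is nilpotent by induction. -/
def NB_stmt : Prop := ∀ (T : Type u) [Group T] (B : Subgroup T) (a : T), B.FG →
  Group.IsNilpotent B → (∀ b ∈ B, a⁻¹ * b * a ∈ B) → (∀ b ∈ B, a * b * a⁻¹ ∈ B) → EngelOn B a →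
  Group.IsNilpotent (B ⊔ zpowers a : Subgroup T)

/-- NAE: `N` normal locally nilpotent, `a` Engel on `N`: `N<a>` is locally nilpotent. Proof: a
finitely generated subgroup is contained in `B<a>`, `B` generated by the `[n_j, _i a]` (finitely
many are not `1`); `B` is normalised by `a`: `(c_i)^a = c_i c_(i+1)` with `c_i = [n, _i a]`; then NB. -/
def NAE_stmt : Prop := ∀ (T : Type u) [Group T] (N : Subgroup T) (a : T), N.Normal → LocNilp N →
  EngelOn N a → LocNilp (N ⊔ zpowers a)

/-- HPT (Hirsch-Plotkin), from FIT. Proof: it is enough to show that `J = A ⊔ B` is nilpotent for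
`A = <X>`, `B = <Y>`, `X ⊆ H`, `Y ⊆ K` finite.  `C = {[x, y] | x ∈ X, y ∈ Y}` is a finite subset of `H ∩ K`.
`<X, C>` is a finitely generated subgroup of `H`, so nilpotent, so all its subgroups are finitely
generated (Pool/Agent/helper14/FA/MaxCond.lean: `maxCond_of_nilpotent`); in particular
`U = <c^g | c ∈ C, g ∈ A>` is finitely generated, `U ≤ H ∩ K`.  `<Y, U>` is a finitely generated subgroup of
`K`, so nilpotent; so `V = <u^g | u ∈ U, g ∈ B>` is finitely generated, `V ≤ H ∩ K`.  `V` is normalised by `B`,
and by `A`: (`V` contains `[a, b]` for `a ∈ A`, `b ∈ B` (induction on words) and `c^(g h)`, `g ∈ A`, `h ∈ B`;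
for `a ∈ A`: `(c^(g h))^a = c^(g a h [h, a])`, `[h, a] ∈ V`; `[a, b] ∈ V` can be proved first with the
group generated by all `c^(g h)`.)  So `V = [A, B]`, `A V` and `B V` are normal in `J`, finitely generated in
`H`, `K`, so nilpotent; `J = (A V)(B V)` is nilpotent by FIT. -/
def HPT_stmt : Prop := ∀ (G : Type u) [Group G] (H K : Subgroup G), H.Normal → K.Normal →
  LocNilp H → LocNilp K → LocNilp (H ⊔ K)

/-- HPR: `HP G` is normal, locally nilpotent and contains all normal locally nilpotent subgroups
(from HPT: a finite subset of a join lies in the join of finitely many). -/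
def HPR_stmt : Prop := ∀ (G : Type u) [Group G], (HP G).Normal ∧ LocNilp (HP G) ∧
  (∀ N : Subgroup G, N.Normal → LocNilp N → N ≤ HP G) ∧ (HP G).Characteristic

/-- SNB: subnormal locally nilpotent subgroups are in `HP G` (from HPR: if `H ⊴ K`, `K` subnormal then
`H` is in `HP K`, which is characteristic in `K`; go up the series). -/
def SNB_stmt : Prop := ∀ (G : Type u) [Group G] (H : Subgroup G), H.IsSubnormal → LocNilp H →
  H ≤ HP G

/-- HLE: elements of `HP G` are left Engel (`<a, g>`: `[g, a]` is in `HP G`, and `<[g, a], a>` is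
finitely generated in `HP G`, so nilpotent). -/
def HLE_stmt : Prop := ∀ (G : Type u) [Group G] (a : G), a ∈ HP G → LeftEngel a

/-- GRU (Gruenberg): see the file header of the proof notes. Proof: `a^g` is Engel on `N` for every
`g`.  Let `X = <a^(g_1), ..., a^(g_r)>`, `Y = X N`.  `Y/N` is a finitely generated subgroup of `D/N`, so
nilpotent; hence `N <a^(g_i)>` is subnormal in `Y`, and it is locally nilpotent by NAE (applied in `Y`
or in `T`), so it lies in `HP Y` by SNB; so `Y = HP Y`.  So the normal closure of `a` is locally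
nilpotent. -/
def GRU_stmt : Prop := ∀ (T : Type u) [Group T] (N D : Subgroup T) [N.Normal] [D.Normal], N ≤ D →
  LocNilp N → LocNilp (D.map (QuotientGroup.mk' N)) → ∀ a ∈ D, EngelOn N a → a ∈ HP T

/-- EXA. Proof: `H1` = image of `HP M` in `T` (normal in `T`, locally nilpotent, contains `[M, a]`, which
is normal in `M`).  `C = {g | [m, g] ∈ H1 for all m ∈ M}` (normal).  `W/M = [K/M, a]<a>` is normal in
`T/M` (`T/M` is generated by `K/M` and `a`, and `a` is central modulo `[K/M, a]`) and locally
nilpotent by NAE.  `D = C ⊓ W`, `Z1 = C ⊓ M`: `Z1/H1` is abelian, `D/Z1 ≃ DM/M ≤ W/M`.  GRU in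
`T/H1` for `N = Z1/H1` and `D/H1`, then GRU in `T` for `N = H1` and `D` = the preimage of
`HP (T/H1)`. -/
def EXA_stmt : Prop := ∀ (T : Type u) [Group T] (K M : Subgroup T) [K.Normal] [M.Normal] (a : T),
  M ≤ K → K ⊔ zpowers a = ⊤ → EngelOn K a → LocNilp (bra M a) →
  LocNilp ((bra K a).map (QuotientGroup.mk' M)) → a ∈ HP T

/-- EXB: automorphism form of EXA. Proof: `T = K ⋊ Multiplicative ℤ`, `a = inr (ofAdd (-1))` for the
action `n ↦ α^n`, so that `a⁻¹ (inl k) a = inl (α k)` and `[inl k, a] = inl (δ k)`. -/
def EXB_stmt : Prop := ∀ (K : Type u) [Group K] (α : MulAut K) (M : Subgroup K) [M.Normal],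
  (∀ m ∈ M, α m ∈ M) → (∀ m ∈ M, α⁻¹ m ∈ M) → EngelAut α →
  LocNilp (closure {x : K | ∃ m ∈ M, x = del α m}) →
  LocNilp ((Bra α).map (QuotientGroup.mk' M)) → LocNilp (Bra α)

/-- PEX: from EXB. -/
def PEX_stmt : Prop := ∀ (B : Type u) [Group B] (M : Subgroup B) [M.Characteristic],
  P M → P (B ⧸ M) → P B

/-- SOL: solvable groups have `P` (PEX with the derived subgroup, induction on the derived length);
and if `[B, α]` is solvable then it is locally nilpotent (EXB with `M = [B, α]`, on the quotient
`α` is trivial). -/
def SOL_stmt : Prop := (∀ (B : Type u) [Group B], Group.IsSolvable B → P B) ∧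
  ∀ (B : Type u) [Group B] (α : MulAut B), EngelAut α → Group.IsSolvable (Bra α) → LocNilp (Bra α)

/-- JSN: if `S`, `U` are subnormal and `U` normalises `S` then `S ⊔ U` is subnormal. Proof: induction on
the length of the series of successive normal closures of `S` (all terms are normalised by
`U`): if `S ⊴ S1`, `U` normalises `S` and `S1`, `S1 U` subnormal, then in `S1 U / S` the image of `U`
is subnormal, so `S U` is subnormal in `S1 U`. -/
def JSN_stmt : Prop := ∀ (G : Type u) [Group G] (S U : Subgroup G), S.IsSubnormal →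
  U.IsSubnormal → (∀ x ∈ U, ∀ s ∈ S, x * s * x⁻¹ ∈ S) → (S ⊔ U).IsSubnormal

/-- ZIP (Wielandt's zipper lemma, Isaacs FGT 2.9). Induction on the index of `S`: `S` is not normal;
let `N_G(S) ≤ M0`, `M0` maximal, `S ≤ K` maximal; show `K = M0`. `S` is subnormal in `K`. If it is
normal then `K ≤ N_G(S) ≤ M0`. Otherwise take `S ⊴ H1 ⊴ H2` in a series from `S` to `K`, `S` not
normal in `H2`, `x` in `H2` with `S^x ≠ S`; `S^x ≤ H1 ≤ N_G(S)`. `T = S S^x` is not subnormal in `G`
(as `S ⊴ T`), satisfies the hypothesis by JSN, and has smaller index; `T ≤ K`, `T ≤ M0`. -/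
def ZIP_stmt : Prop := ∀ (G : Type u) [Group G] [Finite G] (S : Subgroup G),
  (∀ H : Subgroup G, S ≤ H → H ≠ ⊤ → (S.subgroupOf H).IsSubnormal) → ¬ S.IsSubnormal →
  ∀ M K : Subgroup G, IsCoatom M → IsCoatom K → S ≤ M → S ≤ K → M = K

/-- BAE (Baer). Proof: minimal counterexample; by ZIP `<a>` is in a unique maximal subgroup `M`. For
`g` put `g_0 = g`, `g_(i+1) = [g_i, a] = (a^(g_i))⁻¹ a`. If `g_(i+1) ∈ M` then `a^(g_i) ∈ M`, so
`a ∈ g_i M g_i⁻¹ = M`, `g_i ∈ N_G(M)`. If `N_G(M) = M` all `g` are in `M`; otherwise `M` is normal and `<a>`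
subnormal in `M`. -/
def BAE_stmt : Prop := ∀ (G : Type u) [Group G] [Finite G] (a : G), LeftEngel a →
  (zpowers a).IsSubnormal

/-- PFI: finite groups have `P` (from BAE and SNB in `B ⋊ <α>`). -/
def PFI_stmt : Prop := ∀ (B : Type u) [Group B] [Finite B], P B

/-- LOC: `P` is a local property. Proof: for a finite set `S` the subgroup `B` generated by the
`δ^j(s)` is finitely generated, `α(B) = B`: `α(δ^j s) = δ^j(s) δ^(j+1)(s)`. -/
def LOC_stmt : Prop := ∀ (K : Type u) [Group K], Good K → P K

/-- NLN: nilpotent subgroups of `GL_n` over finite fields have bounded derived length. Proof: for a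
finite dimensional space `V` by induction on `dim V`. If `V` has a proper nonzero `G`-invariant
subspace `W`, the kernel of `G → GL(W) × GL(V/W)` is abelian. If `V` is irreducible let `A` be a
maximal abelian normal subgroup; `C_G(A) = A` (nilpotent); `R = k[A] ⊆ End V`; its nilradical `J` is
`G`-invariant, `JV ≠ V`, so `J = 0` and `R` is a product of `t ≤ n` fields (`V = ⊕ e_i V`, all
nonzero). `G` permutes the `t` primitive idempotents; the image is a nilpotent subgroup of `S_t`
(derived length at most `n!`); the kernel acts on the finite fields `E_i = e_i R` by automorphisms,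
which commute, and the kernel of that action is `C_G(A) = A`. -/
def NLN_stmt : Prop := ∀ n : ℕ, ∃ d : ℕ, ∀ (k : Type u) [Field k] [Finite k] (G : Type u) [Group G]
  [Finite G] (ρ : G →* GL (Fin n) k), Function.Injective ρ → Group.IsNilpotent G →
  derivedSeries G d = ⊥

/-- FGL (Malcev). Proof: the subring `R` generated by the entries of generators and their inverses is
a finitely generated domain; `r ≠ 0` an entry of `b - 1`; a maximal ideal of `R[1/r]` has finite
residue field. -/
def FGL_stmt : Prop := ∀ (F : Type u) [Field F] (n : ℕ) (B : Subgroup (GL (Fin n) F)), B.FG →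
  ResLin n B

/-- LBE. Proof: for `ρ : B → GL_n(k)`, `k` finite, let `N*` be the intersection of all subgroups of
index at most `|GL_n(k)|`; it is characteristic of finite index (`B` is finitely generated) and in the
kernel of `ρ`. By PFI `[B, α]` has nilpotent image in `B/N*`, so in `GL_n(k)`; by NLN its `d`-th
derived group is in the kernel of `ρ`. So `[B, α]` is solvable; SOL. -/
def LBE_stmt : Prop := ∀ (B : Type u) [Group B] (n : ℕ), Group.FG B → ResLin n B → P B

/-- GIS: `Good` passes to groups with an injective homomorphism into a good group, `P` is invariant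
under isomorphism. -/
def GIS_stmt : Prop := (∀ (K L : Type u) [Group K] [Group L] (f : K →* L), Function.Injective f →
  Good L → Good K) ∧ (∀ (K L : Type u) [Group K] [Group L], (K ≃* L) → P K → P L)

/-- LIN. Proof: for `B ≤ K` finitely generated let `M` be the intersection of the kernels of all
`ρ : B → GL_n(k)`, `k` a finite field in `Type u`: it is characteristic in `B`, contained in `ker f` by
FGL (applied to `g(f(B))`), so `P M` by LOC and GIS, and `B/M` is finitely generated and `ResLin n`, so has
`P` by LBE; PEX. -/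
def LIN_stmt : Prop := ∀ (F : Type u) [Field F] (n : ℕ) (H : Type u) [Group H]
  (g : H →* GL (Fin n) F), Function.Injective g → ∀ (K : Type u) [Group K] (f : K →* H),
  Good f.ker → Good K

/-- STE: induction on `InL H`, with LIN and GIS. sub: compose. ext: `f⁻¹(N)` is good by the induction
hypothesis for `N` (kernel `≃ ker f`), then the hypothesis for `H/N` and `K → H/N`. union: a finitely
generated `B ≤ K` is contained in some `f⁻¹(S s)`. -/
def STE_stmt : Prop := ∀ (H : Type u) [Group H], InL H → ∀ (K : Type u) [Group K] (f : K →* H),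
  Good f.ker → Good K

/-- MAI: from STE with the identity of `K`, LOC, EXA or NAE. Proof: `P K`; conjugation by `a` is an Engel
automorphism of `K`, `[K, a]` is normal in `K` and locally nilpotent, so in the image of `HP K` which
is normal in `T`. -/
def MAI_stmt : Prop := ∀ (T : Type u) [Group T] (K : Subgroup T) [K.Normal], InL K →
  ∀ a : T, LeftEngel a → ∀ k ∈ K, com k a ∈ HP T

/-- MAJ: `G` in `InL`: left Engel elements are in `HP G`.  Proof: by MAI `[g, a] ∈ HP G` for all `g`, so
`(HP G)<a>` is normal and locally nilpotent by NAE. -/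
def MAJ_stmt : Prop := ∀ (G : Type u) [Group G], InL G → ∀ a : G, LeftEngel a → a ∈ HP G

/-- LFI: finite groups are in `InL` (Cayley, permutation matrices over `ULift ℚ`). -/
def LFI_stmt : Prop := ∀ (G : Type u) [Group G], Finite G → InL G

/-- LAB: abelian groups are in `InL`: locally finitely generated; finitely generated abelian groups by
induction on the number of generators, extensions by cyclic groups; the infinite cyclic group is
linear (unipotent 2 x 2 matrices over `ULift ℚ`), finite ones by LFI. -/
def LAB_stmt : Prop := ∀ (G : Type u) [Group G], (∀ a b : G, a * b = b * a) → InL G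

/-- LNI: groups that are locally nilpotent or solvable are in `InL`. -/
def LNI_stmt : Prop := ∀ (G : Type u) [Group G],
  (Group.IsSolvable G → InL G) ∧ (LocNilp (⊤ : Subgroup G) → InL G)

/-- EGL: elementary amenable groups are in `InL`. Proof: define `E0` by the constructors finite,
abelian, ext, union, and equivalence under isomorphism; show by induction that `E0` is closed under
quotients (for `N ⊴ G`: `MN/N ≃ M/(M ∩ N)` and `G/MN`) and subgroups. -/
def EGL_stmt : Prop := ∀ (G : Type u) [Group G], EG G → InL G

/-- JNN: reduction of Q1. Proof: some `X = <a^(g_1), ..., a^(g_r)>` is not nilpotent. The normal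
subgroups `N` of `X` with `X/N` not nilpotent are closed under unions of chains: `γ_(c+1)(X)` is the
normal closure of finitely many left normed commutators of the generators. Take `N` maximal,
`H = X/N`. If `1 ≠ L ⊴ H`, `L` in `InL`, then `H/L` is nilpotent, so `H` is in `InL`, so its generators
are in `HP H` (MAJ, RLE, and `HP` is a subgroup) and `H` is nilpotent. -/
def JNN_stmt : Prop := ∀ (l : ℕ) (G : Type u) [Group G] (a : G), RightNEngel l a → a ∉ HP G →
  ∃ (H : Type u) (_ : Group H), (∃ S : Finset H, closure (S : Set H) = ⊤ ∧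
    ∀ s ∈ S, RightNEngel l s) ∧ ¬ Group.IsNilpotent H ∧
    (∀ N : Subgroup H, ∀ _ : N.Normal, N ≠ ⊥ → Group.IsNilpotent (H ⧸ N)) ∧
    (∀ N : Subgroup H, N.Normal → N ≠ ⊥ → ¬ InL N)

end Pool.Agent.helper80.EN
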