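import Pool.Agent.helper80.EN.BAS
import Pool.Agent.helper80.EN.TRF
import Pool.Agent.helper36.EN.FIT
import Pool.Agent.helper99.EN.HPT
import Pool.Agent.helper8.EN.HPR
import Pool.Agent.helper43.EN.SNB
import Pool.Agent.helper19.EN.HLE
import Pool.Agent.helper22.EN.RLE
import Pool.Agent.helper37.EN.NB
import Pool.Agent.helper15.EN.NAE
import Pool.Agent.helper24.EN.GRU
import Pool.Agent.helper14.EN.EXA
import Pool.Agent.helper73.EN.EXB
import Pool.Agent.helper3.EN.PEX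
import Pool.Agent.helper48.EN.SOL
import Pool.Agent.helper51.EN.JSN
import Pool.Agent.helper89.EN.ZIP
import Pool.Agent.helper74.EN.BAE
import Pool.Agent.helper69.EN.PFI
import Pool.Agent.helper96.EN.LOC
import Pool.Agent.helper34.EN.NLN
import Pool.Agent.helper9.EN.FGL
import Pool.Agent.helper13.EN.LBE
import Pool.Agent.helper11.EN.GIS
import Pool.Agent.helper87.EN.LIN
import Pool.Agent.helper70.EN.STE
import Pool.Agent.helper95.EN.MAI
import Pool.Agent.helper65.EN.MAJ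
import Pool.Agent.helper44.EN.LFI
import Pool.Agent.helper25.EN.LAB
import Pool.Agent.helper67.EN.LNI
import Pool.Agent.helper32.EN.EGL
import Pool.Agent.helper2.EN.JNN

set_option autoImplicit false

/-! # Assembly of the rows -/

namespace Pool.Agent.helper80.EN.Asm

open Pool.Agent.helper80.EN

universe u

theorem aTRF : TRF_stmt.{u} := TRF
theorem aBAS : BAS_stmt.{u} := BAS
theorem aFIT : FIT_stmt.{u} := FIT
theorem aHPT : HPT_stmt.{u} := HPT aFIT aTRF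
theorem aHPR : HPR_stmt.{u} := HPR aHPT aTRF
theorem aSNB : SNB_stmt.{u} := SNB aHPR aTRF
theorem aHLE : HLE_stmt.{u} := HLE aHPR aBAS
theorem aRLE : RLE_stmt.{u} := RLE aBAS
theorem aNB : NB_stmt.{u} := NB
theorem aNAE : NAE_stmt.{u} := NAE aNB aBAS aTRF
theorem aGRU : GRU_stmt.{u} := GRU aNAE aHPR aSNB aTRF aBAS
theorem aEXA : EXA_stmt.{u} := EXA aGRU aNAE aHPR aTRF aBAS
theorem aEXB : EXB_stmt.{u} := EXB aEXA aHPR aTRF
theorem aPEX : PEX_stmt.{u} := PEX aEXB aTRF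
theorem aSOL : SOL_stmt.{u} := SOL aPEX aEXB aTRF
theorem aJSN : JSN_stmt.{u} := JSN
theorem aZIP : ZIP_stmt.{u} := ZIP aJSN
theorem aBAE : BAE_stmt.{u} := BAE aZIP aBAS
theorem aPFI : PFI_stmt.{u} := PFI aBAE aSNB aHPR aTRF aBAS
theorem aLOC : LOC_stmt.{u} := LOC
theorem aNLN : NLN_stmt.{u} := NLN
theorem aFGL : FGL_stmt.{u} := FGL
theorem aLBE : LBE_stmt.{u} := LBE aPFI aNLN aSOL aTRF
theorem aGIS : GIS_stmt.{u} := GIS aTRF
theorem aLIN : LIN_stmt.{u} := LIN aFGL aLBE aLOC aGIS aPEX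
theorem aSTE : STE_stmt.{u} := STE aGIS aLIN
theorem aMAI : MAI_stmt.{u} := MAI aSTE aLOC aHPR aTRF aBAS
theorem aMAJ : MAJ_stmt.{u} := MAJ aMAI aNAE aHPR
theorem aLFI : LFI_stmt.{u} := LFI
theorem aLAB : LAB_stmt.{u} := LAB aLFI
theorem aLNI : LNI_stmt.{u} := LNI aLAB
theorem aEGL : EGL_stmt.{u} := EGL aLFI aLAB
theorem aJNN : JNN_stmt.{u} := JNN aMAJ aRLE aLNI aHPR aTRF aBAS

end Pool.Agent.helper80.EN.Asm
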