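import Pool.Agent.helper80.EN.Spec

set_option autoImplicit false

namespace Pool.Agent.helper80.EN

open Subgroup

universe u

theorem com_eq {G : Type u} [Group G] (x y : G) : com x y = x⁻¹ * (y⁻¹ * x * y) := by
  simp only [com, mul_assoc]

theorem com_conj {G : Type u} [Group G] (x y g : G) :
    com (g⁻¹ * x * g) (g⁻¹ * y * g) = g⁻¹ * com x y * g := by
  simp only [com]; group

theorem icom_conj {G : Type u} [Group G] (x y g : G) (n : ℕ) :
    icom (g⁻¹ * x * g) (g⁻¹ * y * g) n = g⁻¹ * icom x y n * g := by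
  induction n with
  | zero => rfl
  | succ n ih => simp only [icom]; rw [ih, com_conj]

theorem map_com {G H : Type u} [Group G] [Group H] (f : G →* H) (x y : G) :
    f (com x y) = com (f x) (f y) := by
  simp only [com, map_mul, map_inv]

theorem map_icom {G H : Type u} [Group G] [Group H] (f : G →* H) (x y : G) (n : ℕ) :
    f (icom x y n) = icom (f x) (f y) n := by
  induction n with
  | zero => rfl
  | succ n ih => simp only [icom]; rw [map_com, ih]

theorem icom_add {G : Type u} [Group G] (x y : G) (m n : ℕ) :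
    icom x y (m + n) = icom (icom x y m) y n := by
  induction n with
  | zero => rfl
  | succ n ih =>
    rw [← Nat.add_assoc]
    simp only [icom]
    rw [ih]

theorem com_one {G : Type u} [Group G] (y : G) : com 1 y = 1 := by
  simp only [com]; group

theorem icom_one {G : Type u} [Group G] (y : G) (n : ℕ) : icom 1 y n = 1 := by
  induction n with
  | zero => rfl
  | succ n ih => simp only [icom]; rw [ih, com_one]

theorem icom_one_of_le {G : Type u} [Group G] (x y : G) {m n : ℕ} (h : m ≤ n)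
    (hm : icom x y m = 1) : icom x y n = 1 := by
  obtain ⟨k, rfl⟩ := Nat.exists_eq_add_of_le h
  rw [icom_add, hm, icom_one]

theorem com_mem_of_normal {G : Type u} [Group G] (K : Subgroup G) (hK : K.Normal) {k a : G}
    (hk : k ∈ K) : com k a ∈ K := by
  rw [com_eq]
  refine K.mul_mem (K.inv_mem hk) ?_
  have := hK.conj_mem k hk a⁻¹
  simpa using this

theorem com_mul_zpow {G : Type u} [Group G] (k a : G) (i : ℤ) :
    com (k * a ^ i) a = (a ^ i)⁻¹ * com k a * a ^ i := by
  have h : a ^ i * a = a * a ^ i := by rw [← zpow_add_one, ← zpow_one_add, add_comm]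
  simp only [com, mul_inv_rev]
  calc (a ^ i)⁻¹ * k⁻¹ * a⁻¹ * (k * a ^ i) * a
      = (a ^ i)⁻¹ * k⁻¹ * a⁻¹ * k * (a ^ i * a) := by group
    _ = (a ^ i)⁻¹ * k⁻¹ * a⁻¹ * k * (a * a ^ i) := by rw [h]
    _ = (a ^ i)⁻¹ * (k⁻¹ * a⁻¹ * k * a) * a ^ i := by group

theorem leftEngel_of_engelOn {G : Type u} [Group G] (K : Subgroup G) (a : G) (hK : K.Normal)
    (hKa : K ⊔ zpowers a = ⊤) (h : EngelOn K a) : LeftEngel a := by
  intro g
  have hg : g ∈ K ⊔ zpowers a := by rw [hKa]; exact mem_top g
  rw [mem_sup_of_normal_left] at hg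
  obtain ⟨k, hk, z, hz, rfl⟩ := hg
  obtain ⟨i, rfl⟩ := mem_zpowers_iff.1 hz
  obtain ⟨n, hn⟩ := h (com k a) (com_mem_of_normal K hK hk)
  refine ⟨1 + n, ?_⟩
  rw [icom_add]
  have h1 : icom (k * a ^ i) a 1 = (a ^ i)⁻¹ * com k a * a ^ i := by
    simp only [icom]; exact com_mul_zpow k a i
  rw [h1]
  have h2 : a = (a ^ i)⁻¹ * a * a ^ i := by
    have h : a ^ i * a = a * a ^ i := by rw [← zpow_add_one, ← zpow_one_add, add_comm]
    rw [mul_assoc, ← h, inv_mul_cancel_left]
  calc icom ((a ^ i)⁻¹ * com k a * a ^ i) a n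
      = icom ((a ^ i)⁻¹ * com k a * a ^ i) ((a ^ i)⁻¹ * a * a ^ i) n := by rw [← h2]
    _ = (a ^ i)⁻¹ * icom (com k a) a n * a ^ i := icom_conj _ _ _ n
    _ = 1 := by rw [hn]; group

theorem BAS : BAS_stmt.{u} := by
  intro G _
  exact ⟨fun x y g n => icom_conj x y g n, fun H _ f x y n => map_icom f x y n,
    fun x y m n => icom_add x y m n, fun y n => icom_one y n,
    fun K a hK hKa h => leftEngel_of_engelOn K a hK hKa h⟩

end Pool.Agent.helper80.EN
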