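import Pool.Agent.helper80.EN.Spec

/-!
# Engel elements and groups acting on trees (MP_43ab4e_al): definitions and row statements

THEOREM T.  Let `InT` be the smallest class of groups that contains `InL`, is closed under injective
images, local closure, extensions with kernel in `InL` and quotient in `InT`, and under actions on
trees without inversions with vertex stabilisers in `InT` and edge stabilisers in `InL`.  For `G` in
`InT` the left Engel elements are the elements of `HP G`.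

THEOREM R.  A finitely generated group that is generated by right Engel elements and acts on a tree
without inversions fixes a vertex or acts by translations on a line.
-/

set_option autoImplicit false

namespace Pool.Agent.helper80.EN

open Subgroup

universe u

/-- Tree metrics (path metrics of trees). -/
structure TM {V : Type u} (d : V → V → ℕ) : Prop where
  eq : ∀ x y, d x y = 0 ↔ x = y
  symm : ∀ x y, d x y = d y x
  tri : ∀ x y z, d x z ≤ d x y + d y z
  geo : ∀ x y k, k ≤ d x y → ∃ z, d x z = k ∧ d z y = d x y - k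
  four : ∀ x y z w, d x y + d z w ≤ max (d x z + d y w) (d x w + d y z)
  par : ∀ x y z, Even (d x y + d y z + d x z)

/-- `m` is between `x` and `y`. -/
def Bt {V : Type u} (d : V → V → ℕ) (x m y : V) : Prop := d x m + d m y = d x y

/-- Convex sets. -/
def Cvx {V : Type u} (d : V → V → ℕ) (A : Set V) : Prop :=
  ∀ x ∈ A, ∀ y ∈ A, ∀ m, Bt d x m y → m ∈ A

/-- `f` is an isometric embedding of the integers. -/
def Par {V : Type u} (d : V → V → ℕ) (f : ℤ → V) : Prop := ∀ m n : ℤ, (d (f m) (f n) : ℤ) = |m - n|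

/-- Lines. -/
def IsLine {V : Type u} (d : V → V → ℕ) (A : Set V) : Prop := ∃ f : ℤ → V, Par d f ∧ Set.range f = A

/-- An action by isometries of a tree metric, without inversions. -/
structure Act (G : Type u) {V : Type u} [Group G] [MulAction G V] (d : V → V → ℕ) : Prop where
  tm : TM d
  iso : ∀ (g : G) (x y : V), d (g • x) (g • y) = d x y
  inv : ∀ (g : G) (x y : V), d x y = 1 → g • x = y → g • y ≠ x

/-- `g` fixes a point of `V`. -/
def Ell {G : Type u} (V : Type u) [Group G] [MulAction G V] (g : G) : Prop := ∃ v : V, g • v = v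

/-- The axis of `g` (used only when `g` has no fixed point). -/
def Ax {G : Type u} {V : Type u} [Group G] [MulAction G V] (d : V → V → ℕ) (g : G) : Set V :=
  {x | d x (g • g • x) = 2 * d x (g • x)}

/-- `G` acts on the tree `Γ` by automorphisms without inversions. -/
structure TreeAct (G : Type u) [Group G] (V : Type u) [MulAction G V] (Γ : SimpleGraph V) :
    Prop where
  tree : Γ.IsTree
  adj : ∀ (g : G) (u v : V), Γ.Adj u v → Γ.Adj (g • u) (g • v)
  inv : ∀ (g : G) (u v : V), Γ.Adj u v → g • u = v → g • v ≠ u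

/-- The class `InT`. -/
inductive InT : (G : Type u) → [Group G] → Prop
  | base {G : Type u} [Group G] (h : InL G) : InT G
  | sub {G H : Type u} [Group G] [Group H] (f : G →* H) (hf : Function.Injective f) (h : InT H) :
      InT G
  | ext {G : Type u} [Group G] (N : Subgroup G) [N.Normal] (h1 : InL N) (h2 : InT (G ⧸ N)) : InT G
  | union {G : Type u} [Group G] (S : Finset G → Subgroup G) (hS : ∀ s : Finset G, (s : Set G) ⊆ S s)
      (h : ∀ s, InT (S s)) : InT G
  | tree {G : Type u} [Group G] (V : Type u) [MulAction G V] (Γ : SimpleGraph V)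
      (hΓ : TreeAct G V Γ) (hv : ∀ v : V, InT (MulAction.stabilizer G v))
      (he : ∀ u v : V, Γ.Adj u v →
        InL (MulAction.stabilizer G u ⊓ MulAction.stabilizer G v : Subgroup G)) : InT G

/-- In all subgroups of `G` the left Engel elements are in the Hirsch-Plotkin radical. -/
def E (G : Type u) [Group G] : Prop := ∀ (B : Subgroup G) (a : B), LeftEngel a → a ∈ HP B

/-! ## Row statements: trees -/

/-- TB. Proof: paths in trees are unique, so the length of every path is the distance.  `geo`: a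
point of the path.  Gates: for the path `P` from `x` to `y` and `z` let `m` be a point of `P` closest to
`z`; for `p` on `P` the path from `z` to `m` followed by the part of `P` from `m` to `p` is a path (the two parts
meet in `m` only), so `d z p = d z m + d m p`.  This gives `par` (for `p = x, y`) and `four`: if `m1`, `m2` are
the gates of `z`, `w` on the path from `x` to `y` and `m1` is not after `m2`, then
`d x y + d z w ≤ d x m2 + d m2 w + d y m1 + d m1 z = d x w + d y z`.  (`IsTree.dist_eq_dist_add_one_of_adj` and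
induction on the distance are an alternative.) -/
def TB_stmt : Prop := ∀ (V : Type u) (Γ : SimpleGraph V), Γ.IsTree → TM Γ.dist

/-- TAC, from TB: automorphisms preserve the distance (`g` and `g⁻¹` map walks to walks). -/
def TAC_stmt : Prop := ∀ (G V : Type u) [Group G] [MulAction G V] (Γ : SimpleGraph V),
  TreeAct G V Γ → Act G Γ.dist ∧ (∀ B : Subgroup G, TreeAct B V Γ) ∧
    ∀ u v : V, Γ.dist u v = 1 ↔ Γ.Adj u v

/-- TG: toolkit.  (1) uniqueness: `four m m' x y`.  (2) medians: let `2 k = d x y + d x z - d y z` (`par`), `m` in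
`[x, y]` with `d x m = k` (`geo`); `four m z x y` gives `d m z + d x y ≤ k + d y z = d x y - k + d x z`, and
the triangle inequality the rest.  (3) local geodesics: `four x z y w`.  (4) interval convexity: by (5) we may
assume `Bt p x y`, `Bt x y q`; add.  (5) order: let `x'` be in `[p, y]` with `d p x' = d p x` (`geo`); `x = x'` by (1).
(6) gates of intervals: `p` is in `[x, m]` or `[m, y]`; triangle inequality.  (7) gates of convex sets: take
`m` in `A` with `d x m` minimal; for `p` in `A` the median of `x, m, p` is in `A` and in `[x, m]`, so it is `m`.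
(8) uniqueness of gates. -/
def TG_stmt : Prop := ∀ (V : Type u) (d : V → V → ℕ), TM d →
  (∀ x y m m', Bt d x m y → Bt d x m' y → d x m = d x m' → m = m') ∧
  (∀ x y z, ∃ m, Bt d x m y ∧ Bt d y m z ∧ Bt d x m z) ∧
  (∀ x y z w, Bt d x y z → Bt d y z w → y ≠ z →
    Bt d x y w ∧ Bt d x z w ∧ d x w = d x y + d y z + d z w) ∧
  (∀ p q x y z, Bt d p x q → Bt d p y q → Bt d x z y → Bt d p z q) ∧
  (∀ p q x y, Bt d p x q → Bt d p y q → d p x ≤ d p y → Bt d p x y ∧ Bt d x y q) ∧
  (∀ x y z m, Bt d x m y → Bt d x m z → Bt d y m z → ∀ p, Bt d x p y → Bt d z m p) ∧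
  (∀ A : Set V, Cvx d A → A.Nonempty → ∀ x, ∃ m ∈ A, ∀ p ∈ A, Bt d x m p) ∧
  (∀ (A : Set V) (x m m' : V), m ∈ A → m' ∈ A → (∀ p ∈ A, Bt d x m p) → (∀ p ∈ A, Bt d x m' p) →
    m = m')

/-- THL (Helly), from TG: for three sets the median of points of the pairwise intersections; in general
by induction, replacing the sets `C i` by `C i ∩ C j` for one `j`. -/
def THL_stmt : Prop := ∀ (V : Type u) (d : V → V → ℕ), TM d → ∀ (ι : Type u) (s : Finset ι)
  (C : ι → Set V), s.Nonempty → (∀ i ∈ s, Cvx d (C i)) →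
  (∀ i ∈ s, ∀ j ∈ s, ∃ v, v ∈ C i ∧ v ∈ C j) → ∃ v, ∀ i ∈ s, v ∈ C i

/-- TEL, from TG. (1) fixed point sets are convex (uniqueness). (2) `m` = the median of `p`, `g p`, `q`: `m` and
`g m` are in `[q, g p]` at the same distance from `q`.  (3) `b = g⁻¹ a g`, `h = [g, a] = b⁻¹ a`: if `p` is fixed by
`a` and `h⁻¹ a h` then `h p = b⁻¹ p` is fixed by `a`; by (2) for `b⁻¹` there is a fixed point of `b` between
`p` and `b⁻¹ p`, it is fixed by `a`.  (4) by (3) and `icom g a n = 1`. -/
def TEL_stmt : Prop := ∀ (G V : Type u) [Group G] [MulAction G V] (d : V → V → ℕ), Act G d →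
  (∀ g : G, Cvx d {v : V | g • v = v}) ∧
  (∀ (g : G) (q : V), g • q = q → ∀ p : V, ∃ m, Bt d p m (g • p) ∧ g • m = m) ∧
  (∀ a g : G, Ell V a → (¬ ∃ v : V, a • v = v ∧ (g⁻¹ * a * g) • v = v) →
    ¬ ∃ v : V, a • v = v ∧ ((com g a)⁻¹ * a * com g a) • v = v) ∧
  (∀ a : G, LeftEngel a → Ell V a → ∀ g : G, ∃ v : V, a • v = v ∧ (g⁻¹ * a * g) • v = v)

/-- TSE (Serre), from TG, TEL, THL.  (1) take `p` fixed by `s`, `q` fixed by `t` with `L = d p q ≥ 1` minimal.
By TEL (2) there is a fixed point `m` of `s` in `[q, s q]`, `d q (s q) = 2 d q m ≥ 2 L`; so `d q (s q) = 2 L` and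
`Bt q p (s q)`, in the same way `Bt (s⁻¹ q) p q`, `Bt (t⁻¹ p) q p`.  With `u = s t`: `u q = s q`,
`u⁻¹ q = t⁻¹ s⁻¹ q`; the points `t⁻¹ s⁻¹ q, t⁻¹ p, q, p, s q` are on a geodesic (TG (3) twice), so
`d q (u² q) = 4 L = 2 d q (u q)`.  If `u` had a fixed point then by TEL (2) there is `m` in `[q, u q]` with `u m = m`,
`d q (u q) = 2 d q m` and `d q (u² q) ≤ 2 d q m`.  (2) (1) and Helly. -/
def TSE_stmt : Prop := ∀ (G V : Type u) [Group G] [MulAction G V] (d : V → V → ℕ), Act G d →
  (∀ s t : G, Ell V s → Ell V t → (¬ ∃ v : V, s • v = v ∧ t • v = v) → ¬ Ell V (s * t)) ∧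
  ((∀ g : G, Ell V g) → ∀ S : Finset G, ∃ v : V, ∀ s ∈ S, s • v = v)

/-- LNA, from TG: lines. (1) a point between `f m` and `f n` is some `f k` (uniqueness).  (2) `f n = f' (φ n)` with
`|φ m - φ n| = |m - n|`, so `φ n = ε n + φ 0`.  (3) from (2). -/
def LNA_stmt : Prop := ∀ (V : Type u) (d : V → V → ℕ), TM d →
  (∀ f, Par d f → Cvx d (Set.range f)) ∧
  (∀ f f', Par d f → Par d f' → (∀ n, ∃ m, f n = f' m) →
    ∃ ε t : ℤ, (ε = 1 ∨ ε = -1) ∧ ∀ n, f n = f' (ε * n + t)) ∧
  (∀ A A', IsLine d A → IsLine d A' → A ⊆ A' → A = A')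

/-- LNG, from TG (3) by induction: local geodesics. -/
def LNG_stmt : Prop := ∀ (V : Type u) (d : V → V → ℕ), TM d → ∀ f : ℤ → V,
  (∀ n, d (f n) (f (n + 1)) = 1) → (∀ n, d (f n) (f (n + 2)) = 2) → Par d f

/-- THB, from TG, LNG: existence of the axis.  Take `v` with `τ = d v (g v)` minimal, `τ ≥ 1`, points `v_i`,
`0 ≤ i ≤ τ`, of `[v, g v]` with `d v v_i = i`, and `f (k τ + i) = g^k v_i` (`0 ≤ i < τ`).  Then `g (f n) = f (n + τ)`,
`d (f n) (f (n+1)) = 1`, and `d (f n) (f (n+2)) = 2` except perhaps at the corners, where by parity the only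
other possibility is `v_(τ-1) = g v_1`: for `τ = 1` this is the inversion `v ↔ g v`, for `τ ≥ 2`
`d v_1 (g v_1) = τ - 2`, against minimality. -/
def THB_stmt : Prop := ∀ (G V : Type u) [Group G] [MulAction G V] [Nonempty V] (d : V → V → ℕ),
  Act G d → ∀ g : G, ¬ Ell V g →
  ∃ (f : ℤ → V) (τ : ℤ), 1 ≤ τ ∧ Par d f ∧ ∀ n, g • f n = f (n + τ)

/-- THC, from TG, LNA: the gate `m` of `x` on `range f` (convex) has `g m` as the gate of `g x`, `m ≠ g m`, so
`d x (g x) = 2 D + τ` and `d x (g² x) = 2 D + 2 τ` with `D = d x m` (TG (3)). -/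
def THC_stmt : Prop := ∀ (G V : Type u) [Group G] [MulAction G V] (d : V → V → ℕ), Act G d →
  ∀ (g : G) (f : ℤ → V) (τ : ℤ), 1 ≤ τ → Par d f → (∀ n, g • f n = f (n + τ)) →
  Ax d g = Set.range f

/-- THU, from THB, THC, LNA: (1) from THB, THC. (2) with LNA (2) for `n ↦ g • f n`: `g (f n) = f (ε n + t)`; `ε = -1`
gives a fixed point (`t` even) or an inversion (`t` odd); `ε = 1`, `t ≠ 0`, so `A ⊆ Ax g`; LNA (3).
(3) conjugates (trivial computation). -/
def THU_stmt : Prop := ∀ (G V : Type u) [Group G] [MulAction G V] [Nonempty V] (d : V → V → ℕ),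
  Act G d →
  (∀ g : G, ¬ Ell V g → IsLine d (Ax d g)) ∧
  (∀ g : G, ¬ Ell V g → ∀ A : Set V, IsLine d A → (∀ x ∈ A, g • x ∈ A) → A = Ax d g) ∧
  (∀ g h : G, ∀ x : V, x ∈ Ax d (h⁻¹ * g * h) ↔ h • x ∈ Ax d g) ∧
  (∀ g h : G, Ell V (h⁻¹ * g * h) ↔ Ell V g)

/-- TEN, from THU. Descending induction on `i ≤ n` for `g_i = icom x y i`: `g_n = 1`; if `g_(i+1)` and its inverse
preserve `A = Ax y` then so does `c = g_i⁻¹ y g_i = y g_(i+1)⁻¹`; so `A = Ax c`, that is: `v ∈ A ↔ g_i v ∈ A`. -/
def TEN_stmt : Prop := ∀ (G V : Type u) [Group G] [MulAction G V] [Nonempty V] (d : V → V → ℕ),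
  Act G d → ∀ (x y : G) (n : ℕ), icom x y n = 1 → ¬ Ell V y →
  ∀ v ∈ Ax d y, x • v ∈ Ax d y ∧ x⁻¹ • v ∈ Ax d y

/-- TLI, from LNA (and LNI, if wanted): `g (f n) = f (ε_g n + t_g)`; `g ↦ !![ε_g, t_g; 0, 1]` is a homomorphism to
`GL (Fin 2) (ULift ℚ)` with kernel `stabilizer (f 0) ⊓ stabilizer (f 1)`; `InL.ext`. -/
def TLI_stmt : Prop := ∀ (G V : Type u) [Group G] [MulAction G V] (d : V → V → ℕ), Act G d →
  ∀ A : Set V, IsLine d A → (∀ (g : G), ∀ x ∈ A, g • x ∈ A) →
  (∀ u v : V, d u v = 1 → InL (MulAction.stabilizer G u ⊓ MulAction.stabilizer G v : Subgroup G)) →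
  InL G

/-- THY, from TEN, THU, TLI: by TEN all `g` preserve the axis of `a`. -/
def THY_stmt : Prop := ∀ (G V : Type u) [Group G] [MulAction G V] [Nonempty V] (d : V → V → ℕ),
  Act G d →
  (∀ u v : V, d u v = 1 → InL (MulAction.stabilizer G u ⊓ MulAction.stabilizer G v : Subgroup G)) →
  ∀ a : G, LeftEngel a → ¬ Ell V a → InL G

/-- CNC, from HPR (and TRF): the normal closure of `a` is locally nilpotent: every finitely generated subgroup
of it is contained in the subgroup generated by finitely many conjugates. -/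
def CNC_stmt : Prop := ∀ (G : Type u) [Group G] (a : G),
  (∀ S : Finset G, Group.IsNilpotent (closure {x : G | ∃ g ∈ S, x = g⁻¹ * a * g})) → a ∈ HP G

/-- TEG, from CNC, TEL, THL, TRF, HPR: `X = <a^g | g ∈ S>`; the fixed point sets of the `a^g` are convex and meet
pairwise (TEL (4) for `g h⁻¹`, translated by `h⁻¹`), so there is a common fixed vertex `v` (THL); `a^g` is left
Engel in `stabilizer v`, so in its `HP`; `X` is nilpotent. -/
def TEG_stmt : Prop := ∀ (G V : Type u) [Group G] [MulAction G V] (d : V → V → ℕ), Act G d →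
  (∀ v : V, E (MulAction.stabilizer G v)) → ∀ a : G, LeftEngel a → Ell V a → a ∈ HP G

/-! ## Row statements: the class `InT` -/

/-- ESB, from HPR, TRF. (1) transport along isomorphisms.  (2) `B ≃* B.map f`.  (3) `B = ⊤`. -/
def ESB_stmt : Prop :=
  (∀ (G H : Type u) [Group G] [Group H] (e : G ≃* H) (a : G), a ∈ HP G ↔ e a ∈ HP H) ∧
  (∀ (G H : Type u) [Group G] [Group H] (f : G →* H), Function.Injective f → E H → E G) ∧
  (∀ (G : Type u) [Group G], E G → ∀ a : G, LeftEngel a → a ∈ HP G)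

/-- EBA, from MAJ and `InL.sub`. -/
def EBA_stmt : Prop := ∀ (G : Type u) [Group G], InL G → E G

/-- EXG, from GRU, HPR, TRF, BAS (compare the proof of EXA, Pool/Agent/helper14/EN/EXA.lean).  `H1 = HP T ⊓ M`,
`C = {g | ∀ m ∈ M, com m g ∈ H1}` (the kernel of the action on `M/H1`, normal), `W` = the preimage of `HP (T ⧸ M)`,
`D = C ⊓ W`, `Z1 = C ⊓ M = D ⊓ M`.  `a ∈ D`.  In `T/H1`: `Z1/H1` is abelian, and `D/Z1` is locally nilpotent (if
`K ≤ D` is finitely generated then some term of its lower central series is in `M`, so in `Z1`).  GRU: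
`a H1 ∈ HP (T/H1)`.  GRU in `T` for `N = H1` and `D` = the preimage of `HP (T/H1)`. -/
def EXG_stmt : Prop := ∀ (T : Type u) [Group T] (M : Subgroup T) [M.Normal] (a : T), LeftEngel a →
  (∀ m ∈ M, com m a ∈ HP T) → (QuotientGroup.mk' M a) ∈ HP (T ⧸ M) → a ∈ HP T

/-- EEX, from EXG, MAI, ESB: for `B ≤ G` take `M = N.subgroupOf B`, in `InL`; `B/M` embeds in `G/N`. -/
def EEX_stmt : Prop := ∀ (G : Type u) [Group G] (N : Subgroup G) [N.Normal], InL N → E (G ⧸ N) → E G

/-- EUN, from CNC, ESB, TRF, HPR: for `B ≤ G`, `a ∈ B` left Engel and finitely many `g_i ∈ B` take `S s` for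
`s = {a, g_i}`; `a^(g_i)` is in `HP (S s ⊓ B)`. -/
def EUN_stmt : Prop := ∀ (G : Type u) [Group G] (S : Finset G → Subgroup G),
  (∀ s : Finset G, (s : Set G) ⊆ S s) → (∀ s, E (S s)) → E G

/-- ETR, from TAC, TEG, THY, ESB, MAJ: `B ≤ G` acts on the tree; the stabilisers in `B` embed in those in `G`. -/
def ETR_stmt : Prop := ∀ (G V : Type u) [Group G] [MulAction G V] (Γ : SimpleGraph V),
  TreeAct G V Γ → (∀ v : V, E (MulAction.stabilizer G v)) →
  (∀ u v : V, Γ.Adj u v →
    InL (MulAction.stabilizer G u ⊓ MulAction.stabilizer G v : Subgroup G)) → E G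

/-- ETF, from EBA, ESB, EEX, EUN, ETR: induction on `InT`. -/
def ETF_stmt : Prop := ∀ (G : Type u) [Group G], InT G → E G

/-! ## Row statements: right Engel elements -/

/-- RRF, from LNA: by LNA (2) `a (f n) = f (ε n + t)`.  `ε = 1`, `t ≠ 0`: `a` has no fixed point `q` (`d q (f (k t))`
does not depend on `k`, but `|k t| ≤ d q (f 0) + d q (f (k t))`).  `ε = -1`, `t` odd: inversion. `ε = -1`, `t = 2 c`. -/
def RRF_stmt : Prop := ∀ (G V : Type u) [Group G] [MulAction G V] (d : V → V → ℕ), Act G d →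
  ∀ a : G, Ell V a → ∀ f : ℤ → V, Par d f → (∀ n, ∃ m, a • f n = f m) → (∃ n, a • f n ≠ f n) →
  ∃ c : ℤ, ∀ n, a • f (c + n) = f (c - n)

/-- RPJ, from TG, LNA (1): for `x ∈ A'` let `f (c + j)` be its gate on `range f`; if `j ≠ 0` the gate of `a x` is
`f (c - j)`, so by TG (3) `f c` is between `x` and `a x`, so in `A'`. -/
def RPJ_stmt : Prop := ∀ (G V : Type u) [Group G] [MulAction G V] (d : V → V → ℕ), Act G d →
  ∀ (a : G) (f : ℤ → V) (c : ℤ), Par d f → (∀ n, a • f (c + n) = f (c - n)) →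
  ∀ A' : Set V, Cvx d A' → A'.Nonempty → (∀ x ∈ A', a • x ∈ A') →
  ∃ x ∈ A', ∀ n, Bt d x (f c) (f n)

/-- RAX, from THB, THC, THU, LNA, RRF, RPJ, TG: let `f`, `τ` be as in THB, `Ax g = range f`, and `c` from RRF.  Let
`A' = h Ax g`.  The `g^k A'` are axes (of conjugates of `g`), so by RPJ there is `x_k ∈ g^k A'` with gate `f c` on
`range f`; `y_k = g^(-k) x_k ∈ A'` has gate `f (c - k τ)`.  By TG (3) `f (c - k τ)` and `f (c + k τ)` are between
`y_k` and `y_(-k)` for `k ≥ 1`, so in `A'`; so `Ax g ⊆ A'` and `Ax g = A'` by LNA (3). -/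
def RAX_stmt : Prop := ∀ (G V : Type u) [Group G] [MulAction G V] [Nonempty V] (d : V → V → ℕ),
  Act G d → ∀ a : G, Ell V a → (∀ g : G, ¬ Ell V g → ∀ x ∈ Ax d g, a • x ∈ Ax d g) →
  ∀ g : G, ¬ Ell V g → (∃ x ∈ Ax d g, a • x ≠ x) → ∀ h : G, ∀ x ∈ Ax d g, h • x ∈ Ax d g

/-- RFX, from TEN, THU, RAX: `a` preserves all axes (TEN).  If `a` is not elliptic then `Ax g = Ax a` for all
hyperbolic `g` (THU (2)), in particular for the conjugates of `a`, so `Ax a` is invariant: contradiction.
So `a` is elliptic; RAX. -/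
def RFX_stmt : Prop := ∀ (G V : Type u) [Group G] [MulAction G V] [Nonempty V] (d : V → V → ℕ),
  Act G d → ∀ a : G, RightEngel a →
  (∀ g : G, ¬ Ell V g → ∃ h : G, ∃ x ∈ Ax d g, h • x ∉ Ax d g) →
  ∀ g : G, ¬ Ell V g → ∀ x ∈ Ax d g, a • x = x

/-- RDI, from LNA: `g (f n) = f (ε_g n + t_g)` for all `g` (LNA (2)).  `ε_z = 1`, `t_z ≠ 0` (otherwise `z` has a fixed
point or inverts an edge).  If `ε_a = -1` put `r = a z`: `com a r` acts as `n ↦ n + 2 t_z` (up to sign), and if `c`
acts as `n ↦ n + t` then `com c r` acts as `n ↦ n - 2 t`; so `icom a r n` is never `1`. -/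
def RDI_stmt : Prop := ∀ (G V : Type u) [Group G] [MulAction G V] (d : V → V → ℕ), Act G d →
  ∀ f : ℤ → V, Par d f → (∀ (g : G) (n : ℤ), ∃ m, g • f n = f m) → ∀ z : G, ¬ Ell V z →
  ∀ a : G, RightEngel a → ∃ t : ℤ, ∀ n, a • f n = f (n + t)

/-- RFG, from TSE, RFX, RDI, THU, LNA: if all elements are elliptic: TSE (2).  Otherwise, if some hyperbolic `z` has
an invariant axis: RDI for the generators, all `g` act as translations.  Otherwise RFX: all generators, so
`G`, fix the axes pointwise, a contradiction. -/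
def RFG_stmt : Prop := ∀ (G V : Type u) [Group G] [MulAction G V] [Nonempty V] (d : V → V → ℕ),
  Act G d → ∀ S : Finset G, closure (S : Set G) = ⊤ → (∀ s ∈ S, RightEngel s) →
  (∃ v : V, ∀ g : G, g • v = v) ∨
  ∃ (f : ℤ → V) (χ : G →* Multiplicative ℤ), Par d f ∧
    (∀ (g : G) (n : ℤ), g • f n = f (n + Multiplicative.toAdd (χ g))) ∧ ∃ g : G, χ g ≠ 1

end Pool.Agent.helper80.EN
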