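import Pool.Agent.helper80.EN.Spec2

set_option autoImplicit false

namespace Pool.Agent.helper80.EN

open Subgroup

universe u

theorem THU (hTHB : THB_stmt.{u}) (hTHC : THC_stmt.{u}) (hLNA : LNA_stmt.{u}) : THU_stmt.{u} := by
  intro G V _ _ _ d hA
  refine ⟨fun g hg => ?_, fun g hg A hAl hinv => ?_, fun g h x => ?_, fun g h => ?_⟩
  · obtain ⟨f, τ, h1, hf, hgf⟩ := hTHB G V d hA g hg
    exact ⟨f, hf, (hTHC G V d hA g f τ h1 hf hgf).symm⟩
  · obtain ⟨f, hf, rfl⟩ := hAl
    have hf1 : Par d (fun n => g • f n) := fun m n => by rw [hA.iso]; exact hf m n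
    obtain ⟨ε, t, hε, hn⟩ := (hLNA V d hA.tm).2.1 (fun n => g • f n) f hf1 hf (fun n => by
      obtain ⟨m, hm⟩ := hinv (f n) ⟨n, rfl⟩
      exact ⟨m, hm.symm⟩)
    have hn' : ∀ n, g • f n = f (ε * n + t) := hn
    rcases hε with rfl | rfl
    · rcases lt_trichotomy t 0 with ht | ht | ht
      · have hf2 : Par d (fun n => f (-n)) := fun m n => by
          rw [hf (-m) (-n)]
          rw [show -m - -n = -(m - n) by ring, abs_neg]
        have h3 := hTHC G V d hA g (fun n => f (-n)) (-t) (by omega) hf2 (fun n => by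
          show g • f (-n) = f (-(n + -t))
          rw [hn']
          congr 1
          ring)
        rw [h3]
        ext x
        constructor
        · rintro ⟨n, rfl⟩
          exact ⟨-n, by simp⟩
        · rintro ⟨n, rfl⟩
          exact ⟨-n, rfl⟩
      · exfalso
        subst ht
        refine hg ⟨f 0, ?_⟩
        rw [hn']
        simp
      · exact (hTHC G V d hA g f t (by omega) hf (fun n => by rw [hn', one_mul])).symm
    · exfalso
      rcases Int.even_or_odd' t with ⟨c, hc | hc⟩
      · refine hg ⟨f c, ?_⟩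
        rw [hn']
        congr 1
        omega
      · refine hA.inv g (f c) (f (c + 1)) ?_ ?_ ?_
        · have := hf c (c + 1)
          rw [show c - (c + 1) = -1 by ring] at this
          simpa using this
        · rw [hn']
          congr 1
          omega
        · rw [hn']
          congr 1
          omega
  · show d x ((h⁻¹ * g * h) • (h⁻¹ * g * h) • x) = 2 * d x ((h⁻¹ * g * h) • x) ↔
      d (h • x) (g • g • h • x) = 2 * d (h • x) (g • h • x)
    have e1 : h • ((h⁻¹ * g * h) • (h⁻¹ * g * h) • x) = g • g • h • x := by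
      simp [mul_smul]
    have e2 : h • ((h⁻¹ * g * h) • x) = g • h • x := by
      simp [mul_smul]
    rw [← hA.iso h x ((h⁻¹ * g * h) • (h⁻¹ * g * h) • x), e1,
      ← hA.iso h x ((h⁻¹ * g * h) • x), e2]
  · constructor
    · rintro ⟨v, hv⟩
      refine ⟨h • v, ?_⟩
      have := congrArg (fun w => h • w) hv
      simpa [mul_smul] using this
    · rintro ⟨v, hv⟩
      refine ⟨h⁻¹ • v, ?_⟩
      simp [mul_smul, hv]

end Pool.Agent.helper80.EN
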