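import Pool.Agent.helper80.EN.Asm
import Pool.Agent.helper80.EN.Spec2
import Pool.Agent.helper28.EN.TB
import Pool.Agent.helper56.EN.TAC
import Pool.Agent.helper74.EN.TG
import Pool.Agent.helper56.EN.THL
import Pool.Agent.helper55.EN.TEL
import Pool.Agent.helper75.EN.TSE
import Pool.Agent.helper56.EN.LNA
import Pool.Agent.helper99.EN.LNG
import Pool.Agent.helper42.EN.THB
import Pool.Agent.helper89.EN.THC
import Pool.Agent.helper31.EN.TLI
import Pool.Agent.helper46.EN.TEG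
import Pool.Agent.helper96.EN.EEX
import Pool.Agent.helper80.EN.THU
import Pool.Agent.helper21.EN.TEN
import Pool.Agent.helper21.EN.THY
import Pool.Agent.helper21.EN.CNC
import Pool.Agent.helper52.EN.ESB
import Pool.Agent.helper71.EN.EBA
import Pool.Agent.helper79.EN.EXG
import Pool.Agent.helper82.EN.EUN
import Pool.Agent.helper5.EN.ETR
import Pool.Agent.helper79.EN.ETF
import Pool.Agent.helper84.EN.RRF
import Pool.Agent.helper5.EN.RPJ
import Pool.Agent.helper84.EN.RAX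
import Pool.Agent.helper99.EN.RFX
import Pool.Agent.helper50.EN.RDI
import Pool.Agent.helper23.EN.RFG

set_option autoImplicit false

/-! # Assembly of the rows, part 2 -/

namespace Pool.Agent.helper80.EN.Asm

open Pool.Agent.helper80.EN

universe u

theorem aTB : TB_stmt.{u} := TB
theorem aTAC : TAC_stmt.{u} := TAC aTB
theorem aTG : TG_stmt.{u} := TG
theorem aTHL : THL_stmt.{u} := THL aTG
theorem aTEL : TEL_stmt.{u} := TEL aTG
theorem aTSE : TSE_stmt.{u} := TSE aTG aTEL aTHL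
theorem aLNA : LNA_stmt.{u} := LNA aTG
theorem aLNG : LNG_stmt.{u} := LNG aTG
theorem aTHB : THB_stmt.{u} := THB aTG aLNG
theorem aTHC : THC_stmt.{u} := THC aTG aLNA
theorem aTHU : THU_stmt.{u} := THU aTHB aTHC aLNA
theorem aTEN : TEN_stmt.{u} := TEN aTHU
theorem aTLI : TLI_stmt.{u} := TLI aLNA
theorem aTHY : THY_stmt.{u} := THY aTEN aTHU aTLI
theorem aCNC : CNC_stmt.{u} := CNC aHPR aTRF
theorem aTEG : TEG_stmt.{u} := TEG aCNC aTEL aTHL aTRF aHPR
theorem aESB : ESB_stmt.{u} := ESB aHPR aTRF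
theorem aEBA : EBA_stmt.{u} := EBA aMAJ
theorem aEXG : EXG_stmt.{u} := EXG aGRU aHPR aTRF aBAS
theorem aEEX : EEX_stmt.{u} := EEX aEXG aMAI aESB
theorem aEUN : EUN_stmt.{u} := EUN aCNC aTRF aHPR
theorem aETR : ETR_stmt.{u} := ETR aTAC aTEG aTHY aESB aMAJ
theorem aETF : ETF_stmt.{u} := ETF aEBA aESB aEEX aEUN aETR
theorem aRRF : RRF_stmt.{u} := RRF aLNA
theorem aRPJ : RPJ_stmt.{u} := RPJ aTG aLNA
theorem aRAX : RAX_stmt.{u} := RAX aTHB aTHC aTHU aLNA aRRF aRPJ aTG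
theorem aRFX : RFX_stmt.{u} := RFX aTEN aTHU aRAX
theorem aRDI : RDI_stmt.{u} := RDI aLNA
theorem aRFG : RFG_stmt.{u} := RFG aTSE aRFX aRDI aTHU aLNA

end Pool.Agent.helper80.EN.Asm
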