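import Pool.Agent.helper80.EN.Spec4

set_option autoImplicit false

namespace Pool.Agent.helper80.EN

open Subgroup

universe u

theorem BLI_own (h1 : NLN_stmt.{u}) (h2 : FGL_stmt.{u}) (h3 : LDS_stmt.{u}) (h4 : TRF_stmt.{u}) :
    BLI_stmt.{u} := by
  intro n
  obtain ⟨d, hd⟩ := h1 n
  refine ⟨d, fun F _ G _ f hf H hH => ?_⟩
  have hM : LocNilp (H.map f) := (h4 G).2.1 (GL (Fin n) F) f H hH
  have hlin : derivedSeries (H.map f) d = ⊥ := by
    refine h3 (GL (Fin n) F) (H.map f) d ?_
    intro K hKfg hKH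
    have hnil : Group.IsNilpotent K := hM K hKfg hKH
    rw [eq_bot_iff]
    intro b hb
    by_contra hb1
    rw [Subgroup.mem_bot] at hb1
    obtain ⟨k, hk, hfin, ρ, hρ⟩ := h2 F n K hKfg b hb1
    have hfin2 : Finite ρ.range := inferInstance
    have hnil2 : Group.IsNilpotent ρ.range :=
      Group.nilpotent_of_surjective ρ.rangeRestrict ρ.rangeRestrict_surjective
    have hbot := hd k ρ.range ρ.range.subtype (Subgroup.subtype_injective _) hnil2
    have hmem : ρ.rangeRestrict b ∈ derivedSeries ρ.range d :=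
      map_derivedSeries_le_derivedSeries ρ.rangeRestrict d (Subgroup.mem_map_of_mem _ hb)
    rw [hbot, Subgroup.mem_bot] at hmem
    exact hρ (congrArg Subtype.val hmem)
  rw [eq_bot_iff]
  intro x hx
  have h5 : (H.equivMapOfInjective f hf).toMonoidHom x ∈ derivedSeries (H.map f) d :=
    map_derivedSeries_le_derivedSeries (H.equivMapOfInjective f hf).toMonoidHom d
      (Subgroup.mem_map_of_mem _ hx)
  rw [hlin, Subgroup.mem_bot] at h5
  rw [Subgroup.mem_bot]
  exact (H.equivMapOfInjective f hf).injective (h5.trans (map_one _).symm)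

end Pool.Agent.helper80.EN
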