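import Pool.Agent.helper80.EN.Spec3

/-!
# Bounded left Engel elements (MP_202db4_al): groups whose locally nilpotent subgroups are solvable of
bounded derived length
-/

set_option autoImplicit false

namespace Pool.Agent.helper80.EN

open Subgroup

universe u

/-- All locally nilpotent subgroups have derived length at most `d`. -/
def BDL (d : ℕ) (G : Type u) [Group G] : Prop :=
  ∀ H : Subgroup G, LocNilp H → derivedSeries H d = ⊥

/-- The class `InS`: the smallest class of groups that contains the linear groups and is closed under
subgroups, extensions with kernel in `InL` (and in `InS`), and actions on trees with finitely many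
orbits of vertices, vertex stabilisers in `InS` and edge stabilisers in `InL`. -/
inductive InS : (G : Type u) → [Group G] → Prop
  | linear {G : Type u} [Group G] (F : Type u) [Field F] (n : ℕ) (f : G →* GL (Fin n) F)
      (hf : Function.Injective f) : InS G
  | sub {G H : Type u} [Group G] [Group H] (f : G →* H) (hf : Function.Injective f) (h : InS H) :
      InS G
  | ext {G : Type u} [Group G] (N : Subgroup G) [N.Normal] (h0 : InL N) (h1 : InS N)
      (h2 : InS (G ⧸ N)) : InS G
  | tree {G : Type u} [Group G] (V : Type u) [MulAction G V] (Γ : SimpleGraph V)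
      (hΓ : TreeAct G V Γ) (hf : Finite (MulAction.orbitRel.Quotient G V))
      (hv : ∀ v : V, InS (MulAction.stabilizer G v))
      (he : ∀ u v : V, Γ.Adj u v →
        InL (MulAction.stabilizer G u ⊓ MulAction.stabilizer G v : Subgroup G)) : InS G

/-! ## Row statements -/

/-- BLI, from NLN, FGL, LDS, TRF: locally nilpotent linear groups of degree `n` have bounded derived length.
Take `d` from NLN for `n`.  Let `H ≤ G` be locally nilpotent and `K ≤ H` finitely generated.  If
`b ∈ derivedSeries K d`, `b ≠ 1`, then FGL (for `K →* GL (Fin n) F`, injective) gives `ρ : K →* GL (Fin n) k`,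
`k` finite, `ρ b ≠ 1`; the image is finite and nilpotent, so its `d`-th derived group is trivial:
contradiction.  LDS. -/
def BLI_stmt : Prop := ∀ n : ℕ, ∃ d : ℕ, ∀ (F : Type u) [Field F] (G : Type u) [Group G]
  (f : G →* GL (Fin n) F), Function.Injective f → BDL d G

/-- BDC, from TRF. (1) `derivedSeries` is antitone.  (2) `H.map f` is locally nilpotent and isomorphic to
`H`.  (3) `H ⊓ N` (as a subgroup of `N`) and the image of `H` in `G ⧸ N` are locally nilpotent;
`derivedSeries H e ≤ H ⊓ N` and so on. -/
def BDC_stmt : Prop :=
  (∀ (G : Type u) [Group G] (d e : ℕ), d ≤ e → BDL d G → BDL e G) ∧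
  (∀ (G H : Type u) [Group G] [Group H] (f : G →* H), Function.Injective f → ∀ d, BDL d H →
    BDL d G) ∧
  (∀ (G : Type u) [Group G] (N : Subgroup G) [N.Normal] (d e : ℕ), BDL d N → BDL e (G ⧸ N) →
    BDL (d + e) G)

/-- BDT, from TAC, TSE, TEN, THU, LNA, HLE, HPR, TRF, LDS.  Let `H ≤ G` be locally nilpotent (it acts on
the tree; `V` is nonempty).  Case 1: all elements of `H` are elliptic.  Every finitely generated `K ≤ H`
fixes a vertex `v` (TSE (2) for the group `H`), so `K` is a locally nilpotent subgroup of `stabilizer G v`
and `derivedSeries K d = ⊥`; LDS.  Case 2: some `z ∈ H` is not elliptic.  All `x ∈ H` satisfy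
`icom x z n = 1` for some `n` (`z ∈ HP H = ⊤`, HLE), so by TEN they preserve the line `Ax z` (THU (1)); with
LNA (2), `x (f n) = f (ε_x n + t_x)` for a parametrisation `f` of the line.  Commutators have `ε = 1`, and
commutators of elements with `ε = 1` fix `f 0`.  So `derivedSeries H 2` is contained in
`stabilizer G (f 0)` and is locally nilpotent. -/
def BDT_stmt : Prop := ∀ (G V : Type u) [Group G] [MulAction G V] (Γ : SimpleGraph V) (d : ℕ),
  TreeAct G V Γ → (∀ v : V, BDL d (MulAction.stabilizer G v)) → BDL (d + 2) G

/-- BDS, from BLI, BDC, BDT: induction on `InS`.  tree: finitely many orbits; stabilisers of points of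
the same orbit are isomorphic (`MulAction.stabilizerEquivStabilizerOfOrbitRel`), so BDC (2); the maximum
of the finitely many bounds, BDC (1); BDT. -/
def BDS_stmt : Prop := ∀ (G : Type u) [Group G], InS G → ∃ d, BDL d G

end Pool.Agent.helper80.EN
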