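import Pool.Agent.helper80.EN.Asm2
import Pool.Agent.helper80.EN.Spec4
import Pool.Agent.helper80.EN.BDT
import Pool.Agent.helper80.EN.BLI
import Pool.Agent.helper43.EN.SBE
import Pool.Agent.helper18.EN.GBS
import Pool.Agent.helper21.EN.SDA
import Pool.Agent.helper82.EN.JFN
import Pool.Agent.helper32.EN.BSG
import Pool.Agent.helper79.EN.LEQ
import Pool.Agent.helper28.EN.LDS
import Pool.Agent.helper71.EN.BDC
import Pool.Agent.helper3.EN.BDS

set_option autoImplicit false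

/-! # Assembly of the rows, part 3 -/

namespace Pool.Agent.helper80.EN.Asm

open Pool.Agent.helper80.EN

universe u

theorem aSBE : SBE_stmt.{u} := SBE
theorem aGBS : GBS_stmt.{u} := GBS
theorem aSDA : SDA_stmt.{u} := SDA
theorem aJFN : JFN_stmt.{u} := JFN aSDA aJSN aSNB aHPR aTRF
theorem aBSG : BSG_stmt.{u} := BSG aSBE aGBS aJFN aHPR aTRF
theorem aLEQ : LEQ_stmt.{u} := LEQ aETF aESB aHPR
theorem aLDS : LDS_stmt.{u} := LDS
theorem aBLI : BLI_stmt.{u} := BLI_own aNLN aFGL aLDS aTRF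
theorem aBDC : BDC_stmt.{u} := BDC aTRF
theorem aBDT : BDT_stmt.{u} := BDT aTAC aTSE aTEN aTHU aLNA aHLE aHPR aTRF aLDS
theorem aBDS : BDS_stmt.{u} := BDS aBLI aBDC aBDT

end Pool.Agent.helper80.EN.Asm
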