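import Pool.Agent.helper80.EN.Spec5

set_option autoImplicit false

namespace Pool.Agent.helper80.EN

open Subgroup

universe u

lemma CPW_icom {G : Type u} [Group G] {I : Type u} (x a : I → G) (n : ℕ) (i : I) :
    icom x a n i = icom (x i) (a i) n := by
  induction n with
  | zero => rfl
  | succ n ih =>
    show com (icom x a n) a i = com (icom (x i) (a i) n) (a i)
    rw [← ih]
    rfl

theorem CPW : CPW_stmt.{u} := by
  intro G _ a
  constructor
  · rintro ⟨n, hn⟩ x
    exact ⟨n, funext fun i => (CPW_icom x _ n i).trans (hn (x i))⟩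
  · intro h
    by_contra hb
    have h1 : ∀ n : ℕ, ∃ x : G, icom x a n ≠ 1 := by
      intro n
      by_contra hc
      push Not at hc
      exact hb ⟨n, hc⟩
    choose x hx using h1
    obtain ⟨n, hn⟩ := h (fun i => x i.down)
    have h2 := congrFun hn (ULift.up n)
    rw [CPW_icom] at h2
    exact hx n h2

theorem CFI (hCPW : CPW_stmt.{u}) (hHLE : HLE_stmt.{u}) : CFI_stmt.{u} := by
  intro G _ h
  let δ : G →* (ULift.{u} ℕ → G) :=
    { toFun := fun a _ => a
      map_one' := rfl
      map_mul' := fun _ _ => rfl }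
  refine ⟨(HP (ULift.{u} ℕ → G)).comap δ, fun a => ?_, fun a => Iff.rfl⟩
  rw [hCPW G a]
  constructor
  · intro ha
    exact hHLE _ _ ha
  · intro ha
    exact h _ ha

/-- The version for bounded left Engel elements. -/
theorem CFB (hCPW : CPW_stmt.{u}) (hHLE : HLE_stmt.{u}) (G : Type u) [Group G]
    (h : ∀ a : ULift.{u} ℕ → G, BLE a → a ∈ HP (ULift.{u} ℕ → G)) :
    ∃ B : Subgroup G, (∀ a : G, a ∈ B ↔ BLE a) ∧
      ∀ a : G, a ∈ B ↔ (fun _ : ULift.{u} ℕ => a) ∈ HP (ULift.{u} ℕ → G) := by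
  let δ : G →* (ULift.{u} ℕ → G) :=
    { toFun := fun a _ => a
      map_one' := rfl
      map_mul' := fun _ _ => rfl }
  refine ⟨(HP (ULift.{u} ℕ → G)).comap δ, fun a => ?_, fun a => Iff.rfl⟩
  constructor
  · intro ha
    exact (hCPW G a).2 (hHLE _ _ ha)
  · rintro ⟨n, hn⟩
    exact h _ ⟨n, fun x => funext fun i => (CPW_icom x _ n i).trans (hn (x i))⟩

end Pool.Agent.helper80.EN
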