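import Pool.Agent.helper80.EN.Spec5

set_option autoImplicit false

namespace Pool.Agent.helper80.EN

open Subgroup

universe u

theorem INC_own (h1 : GLR_stmt.{u}) (h2 : QPM_stmt.{u}) (h3 : QPS_stmt.{u}) (h4 : QPE_stmt.{u})
    (h5 : QPP_stmt.{u}) (h6 : QPT_stmt.{u}) (h7 : EPW_stmt.{u}) (h8 : EBA_stmt.{u})
    (h9 : ESB_stmt.{u}) (h10 : EEX_stmt.{u}) (h11 : ETR_stmt.{u}) : INC_stmt.{u} := by
  intro G _ h
  induction h with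
  | matrix R n f hf =>
    exact ⟨h3 _ _ f hf (h2 R n), h8 _ (InL.sub f hf (h1 R n))⟩
  | sub f hf _ ih => exact ⟨h3 _ _ f hf ih.1, h9.2.1 _ _ f hf ih.2⟩
  | ext N h0 _ _ ih1 ih2 => exact ⟨h4 _ N ih1.1 ih2.1, h10 _ N h0 ih2.2⟩
  | pow I _ ih => exact ⟨h5 _ I ih.1, h7 _ I ih.1 ih.2⟩
  | tree V Γ hΓ hf _ he ih =>
    exact ⟨h6 _ V Γ hΓ hf fun v => (ih v).1, h11 _ V Γ hΓ (fun v => (ih v).2) he⟩

end Pool.Agent.helper80.EN
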