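import Pool.Agent.helper80.EN.Spec5

set_option autoImplicit false

namespace Pool.Agent.helper80.EN

open Subgroup

universe u

theorem PRD_one {G Q : Type u} [Group G] [Group Q] (f : G →* Q) (h1 : InL f.ker) (h2 : InL Q) :
    InL G := by
  refine InL.ext f.ker h1 ?_
  exact InL.sub (QuotientGroup.kerLift f) (QuotientGroup.kerLift_injective f) h2

theorem PRD_two {G H : Type u} [Group G] [Group H] (h1 : InL G) (h2 : InL H) : InL (G × H) := by
  refine PRD_one (MonoidHom.snd G H) ?_ h2
  refine InL.sub ((MonoidHom.fst G H).comp (MonoidHom.snd G H).ker.subtype) ?_ h1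
  intro x y hxy
  have e1 : x.1.1 = y.1.1 := hxy
  have e2 : x.1.2 = 1 := x.2
  have e3 : y.1.2 = 1 := y.2
  exact Subtype.ext (Prod.ext e1 (e2.trans e3.symm))

theorem PRD_fin : ∀ (n : ℕ) (H : Fin n → Type u) [∀ i, Group (H i)], (∀ i, InL (H i)) →
    InL ((i : Fin n) → H i)
  | 0, H, _, _ => by
    refine InL.linear (G := (i : Fin 0) → H i) (ULift.{u} ℚ) 0 1 ?_
    intro x y _
    funext i
    exact i.elim0
  | n + 1, H, _, h => by
    let f : ((i : Fin (n + 1)) → H i) →* (H 0 × ((i : Fin n) → H i.succ)) :=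
      { toFun := fun x => (x 0, fun i => x i.succ)
        map_one' := rfl
        map_mul' := fun _ _ => rfl }
    refine InL.sub f ?_ (PRD_two (h 0) (PRD_fin n (fun i => H i.succ) fun i => h i.succ))
    intro x y hxy
    have e1 : x 0 = y 0 := congrArg Prod.fst hxy
    have e2 : ∀ i : Fin n, x i.succ = y i.succ := fun i => congrFun (congrArg Prod.snd hxy) i
    funext i
    exact Fin.cases e1 e2 i

theorem PRD : PRD_stmt.{u} := by
  refine ⟨fun G Q _ _ f h1 h2 => PRD_one f h1 h2, fun G H _ _ h1 h2 => PRD_two h1 h2, ?_⟩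
  intro I _ H _ h
  obtain ⟨n, ⟨e⟩⟩ := Finite.exists_equiv_fin I
  let f : ((i : I) → H i) →* ((j : Fin n) → H (e.symm j)) :=
    { toFun := fun x j => x (e.symm j)
      map_one' := rfl
      map_mul' := fun _ _ => rfl }
  refine InL.sub f ?_ (PRD_fin n _ fun j => h _)
  intro x y hxy
  funext i
  obtain ⟨j, rfl⟩ := e.symm.surjective i
  exact congrFun hxy j

end Pool.Agent.helper80.EN
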