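import Pool.Agent.helper80.EN.Spec5

set_option autoImplicit false

namespace Pool.Agent.helper80.EN

open Subgroup

universe u

theorem QPS (hT : TRF_stmt.{u}) : QPS_stmt.{u} := by
  intro G H _ _ f hf hH I K hK
  let φ : ((i : I) → K i) →* ((i : I) → (K i).map f) :=
    { toFun := fun x i => ⟨f (x i), Subgroup.mem_map_of_mem f (x i).2⟩
      map_one' := by
        funext i
        exact Subtype.ext (map_one f)
      map_mul' := by
        intro x y
        funext i
        exact Subtype.ext (map_mul f _ _) }
  refine InL.sub φ ?_ (hH I (fun i => (K i).map f) fun i => (hT G).2.1 H f (K i) (hK i))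
  intro x y hxy
  funext i
  have h1 := congrArg Subtype.val (congrFun hxy i)
  exact Subtype.ext (hf h1)

theorem QPE (hT : TRF_stmt.{u}) (hP : PRD_stmt.{u}) : QPE_stmt.{u} := by
  intro G _ N _ h1 h2 I K hK
  let φ : ((i : I) → K i) →* ((i : I) → (K i).map (QuotientGroup.mk' N)) :=
    { toFun := fun x i => ⟨QuotientGroup.mk' N (x i), Subgroup.mem_map_of_mem _ (x i).2⟩
      map_one' := by
        funext i
        exact Subtype.ext (map_one (QuotientGroup.mk' N))
      map_mul' := by
        intro x y
        funext i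
        exact Subtype.ext (map_mul (QuotientGroup.mk' N) _ _) }
  have hker : ∀ x : φ.ker, ∀ i, ((x.1 i : K i) : G) ∈ N := by
    intro x i
    have e1 := congrArg Subtype.val (congrFun x.2 i)
    have e2 : QuotientGroup.mk' N ((x.1 i : K i) : G) = 1 := e1
    rw [← QuotientGroup.eq_one_iff]
    exact e2
  refine hP.1 _ _ φ ?_ (h2 I _ fun i => (hT G).2.1 (G ⧸ N) (QuotientGroup.mk' N) (K i) (hK i))
  let ψ : φ.ker →* ((i : I) → (K i).comap N.subtype) :=
    { toFun := fun x i => ⟨⟨x.1 i, hker x i⟩, (x.1 i).2⟩
      map_one' := rfl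
      map_mul' := fun _ _ => rfl }
  refine InL.sub ψ ?_ (h1 I _ fun i =>
    (hT N).2.2.2.1 G N.subtype (K i) (Subgroup.subtype_injective N) (hK i))
  intro x y hxy
  refine Subtype.ext (funext fun i => Subtype.ext ?_)
  exact congrArg (fun z => ((z : N) : G)) (congrArg Subtype.val (congrFun hxy i))

theorem QPP (hT : TRF_stmt.{u}) : QPP_stmt.{u} := by
  intro G _ I hG J K hK
  let φ : ((j : J) → K j) →* ((p : J × I) → (K p.1).map (Pi.evalMonoidHom (fun _ : I => G) p.2)) :=
    { toFun := fun x p => ⟨(x p.1 : I → G) p.2, ⟨(x p.1).1, (x p.1).2, rfl⟩⟩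
      map_one' := rfl
      map_mul' := fun _ _ => rfl }
  refine InL.sub φ ?_ (hG (J × I) _ fun p => (hT (I → G)).2.1 G _ (K p.1) (hK p.1))
  intro x y hxy
  funext j
  refine Subtype.ext (funext fun i => ?_)
  exact congrArg Subtype.val (congrFun hxy (j, i))

theorem QPM (hG : GLR_stmt.{u}) : QPM_stmt.{u} := by
  intro R _ n I K _
  let ψ : ((i : I) → K i) →* Matrix (Fin n) (Fin n) (I → R) :=
    { toFun := fun x => Matrix.of fun a b i => ((x i : GL (Fin n) R) : Matrix (Fin n) (Fin n) R) a b
      map_one' := by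
        ext a b i
        by_cases hab : a = b
        · subst hab
          simp
        · simp [hab]
      map_mul' := by
        intro x y
        ext a b i
        simp [Matrix.mul_apply] }
  refine InL.sub ψ.toHomUnits ?_ (hG (I → R) n)
  intro x y hxy
  have h1 : ψ x = ψ y := congrArg Units.val hxy
  funext i
  refine Subtype.ext (Units.ext ?_)
  ext a b
  exact congrFun (congrFun (congrFun h1 a) b) i

end Pool.Agent.helper80.EN
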