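import Pool.Agent.helper80.EN.Spec4

/-!
# Bounded left Engel elements (MP_202db4_al): Cartesian powers and matrix groups over commutative rings

An element `a` of a group `G` is bounded left Engel if and only if the constant sequence `a` is left
Engel in the Cartesian power `ℕ → G`.  So if the left Engel elements of `ℕ → G` are in `HP (ℕ → G)` then the
bounded left Engel elements of `G` are a subgroup.  The class `InC` below is closed under Cartesian
powers, and the left Engel elements of its members are in the Hirsch-Plotkin radical.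
-/

set_option autoImplicit false

namespace Pool.Agent.helper80.EN

open Subgroup

universe u

/-- All Cartesian products of locally nilpotent subgroups of `G` are in `InL`. -/
def QP (G : Type u) [Group G] : Prop :=
  ∀ (I : Type u) (K : I → Subgroup G), (∀ i, LocNilp (K i)) → InL ((i : I) → K i)

/-- The class `InC`: the smallest class of groups that contains the groups of matrices over commutative
rings and is closed under subgroups, extensions with kernel in `InL` and in `InC`, Cartesian powers,
and actions on trees with finitely many orbits of vertices, vertex stabilisers in `InC` and edge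
stabilisers in `InL`. -/
inductive InC : (G : Type u) → [Group G] → Prop
  | matrix {G : Type u} [Group G] (R : Type u) [CommRing R] (n : ℕ) (f : G →* GL (Fin n) R)
      (hf : Function.Injective f) : InC G
  | sub {G H : Type u} [Group G] [Group H] (f : G →* H) (hf : Function.Injective f) (h : InC H) :
      InC G
  | ext {G : Type u} [Group G] (N : Subgroup G) [N.Normal] (h0 : InL N) (h1 : InC N)
      (h2 : InC (G ⧸ N)) : InC G
  | pow {G : Type u} [Group G] (I : Type u) (h : InC G) : InC (I → G)
  | tree {G : Type u} [Group G] (V : Type u) [MulAction G V] (Γ : SimpleGraph V)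
      (hΓ : TreeAct G V Γ) (hf : Finite (MulAction.orbitRel.Quotient G V))
      (hv : ∀ v : V, InC (MulAction.stabilizer G v))
      (he : ∀ u v : V, Γ.Adj u v →
        InL (MulAction.stabilizer G u ⊓ MulAction.stabilizer G v : Subgroup G)) : InC G

/-! ## Row statements -/

/-- CPW.  `→`: coordinatewise.  `←`: if `a` is not bounded left Engel choose `x c` with
`icom (x c) a c ≠ 1`; for the sequence `x` there is `n` with `icom x a n = 1`, but
`icom (x n) a n ≠ 1`. -/
def CPW_stmt : Prop := ∀ (G : Type u) [Group G] (a : G),
  BLE a ↔ LeftEngel (fun _ : ULift.{u} ℕ => a)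

/-- PRD: (1) homomorphisms: `InL.ext` for the kernel; the quotient by it embeds in `Q`. (2) products of
two; (3) finite products, by induction on the finite type (`Finite.induction_empty_option` or via
`Fin n`). -/
def PRD_stmt : Prop :=
  (∀ (G Q : Type u) [Group G] [Group Q] (f : G →* Q), InL f.ker → InL Q → InL G) ∧
  (∀ (G H : Type u) [Group G] [Group H], InL G → InL H → InL (G × H)) ∧
  (∀ (I : Type u) [Finite I] (H : I → Type u) [∀ i, Group (H i)], (∀ i, InL (H i)) →
    InL ((i : I) → H i))

/-- GLK: the congruence subgroup of a nilpotent ideal is solvable.  Proof by induction on `k`: for `k ≤ 1`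
it is trivial.  For `k + 1`: `g, h` in the kernel `K`; `K` maps to the corresponding group for
`R ⧸ J ^ k` (the ideal `J.map` satisfies `(J.map)^k = ⊥`), with kernel contained in `{g | g - 1` has
entries in `J ^ k}` which is abelian (`(1 + A) (1 + B) = 1 + A + B` as `J^k J^k = 0` for `k ≥ 1`).
Alternative: `K_j = {g | g - 1` has entries in `J ^ j}`; `⁅K_i, K_j⁆ ≤ K_(i+j)`, so
`derivedSeries` or `lowerCentralSeries` of `K` is trivial after `k` steps. -/
def GLK_stmt : Prop := ∀ (R : Type u) [CommRing R] (J : Ideal R) (n k : ℕ), J ^ k = ⊥ →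
  Group.IsSolvable (Matrix.GeneralLinearGroup.map (n := Fin n) (Ideal.Quotient.mk J)).ker

/-- GLN, from GLK, PRD, LNI: Noetherian rings.  The nilradical is nilpotent
(`IsNoetherianRing.isNilpotent_nilradical`) and the intersection of the finitely many minimal primes
`p`; `GL n R → Π_p GL n (FractionRing (R ⧸ p))` has a kernel contained in the congruence subgroup of the
nilradical, solvable by GLK, so in `InL` by LNI. PRD (1), (3). -/
def GLN_stmt : Prop := ∀ (R : Type u) [CommRing R] [IsNoetherianRing R] (n : ℕ), InL (GL (Fin n) R)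

/-- GLR, from GLN: `InL.union`; for a finite set `s` of matrices let `R0` be the subring generated by the
entries of the matrices and of their inverses (Noetherian: `Algebra.adjoin ℤ` of a finite set),
`S s` the range of `GL n R0 → GL n R` (injective). -/
def GLR_stmt : Prop := ∀ (R : Type u) [CommRing R] (n : ℕ), InL (GL (Fin n) R)

/-- QPM, from GLR: `Π i, K i` embeds in `I → GL n R`, which embeds in `GL n (I → R)`. -/
def QPM_stmt : Prop := ∀ (R : Type u) [CommRing R] (n : ℕ), QP (GL (Fin n) R)

/-- QPS, from TRF: replace `K i` by `(K i).map f`. -/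
def QPS_stmt : Prop := ∀ (G H : Type u) [Group G] [Group H] (f : G →* H), Function.Injective f →
  QP H → QP G

/-- QPE, from TRF, PRD: `Π K i → Π (K i).map (mk' N)`; the kernel embeds in
`Π (K i).comap N.subtype`. -/
def QPE_stmt : Prop := ∀ (G : Type u) [Group G] (N : Subgroup G) [N.Normal], QP N → QP (G ⧸ N) →
  QP G

/-- QPP, from TRF: `Π j, K j` embeds in the product over `(j, i)` of the images
`(K j).map (Pi.evalMonoidHom _ i)`. -/
def QPP_stmt : Prop := ∀ (G : Type u) [Group G] (I : Type u), QP G → QP (I → G)

/-- TLE, from TAC, TSE, TEN, THU, LNA, HLE, HPR, TRF: see the proof of BDT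
(Pool/Agent/helper80/EN/BDT.lean).  If all elements of `K` are elliptic: TSE (2).  Otherwise
`derivedSeries K 2` fixes a vertex. -/
def TLE_stmt : Prop := ∀ (G V : Type u) [Group G] [MulAction G V] (Γ : SimpleGraph V),
  TreeAct G V Γ → ∀ K : Subgroup G, LocNilp K → ∀ S : Finset K, (∀ s ∈ S, s ∈ derivedSeries K 2) →
  ∃ v : V, ∀ s ∈ S, (s : G) • v = v

/-- QFO, from PRD, TRF: let `ω i` be the orbit of `v i`, `g i • (rep (ω i)) = v i`.  Conjugation by `g i` maps
`M i` onto a locally nilpotent subgroup `M' i` of the stabiliser of `rep (ω i)`; `Π i, M i` embeds in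
`Π ω, Π (i with ω i = ω), M' i`, a finite product of groups that are in `InL` by `QP`. -/
def QFO_stmt : Prop := ∀ (G V : Type u) [Group G] [MulAction G V],
  Finite (MulAction.orbitRel.Quotient G V) → (∀ v : V, QP (MulAction.stabilizer G v)) →
  ∀ (I : Type u) (v : I → V) (M : I → Subgroup G), (∀ i, LocNilp (M i)) →
    (∀ i, M i ≤ MulAction.stabilizer G (v i)) → InL ((i : I) → M i)

/-- QPT, from TLE, QFO, PRD, LNI, TRF: `P = Π K i`; `N = {x | ∀ i, x i ∈ derivedSeries (K i) 2}` is the kernel
of `P → Π K i ⧸ derivedSeries (K i) 2`, a solvable group (all commutators of commutators are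
trivial), so in `InL` by LNI.  `N` is in `InL` by `InL.union`: for a finite set `s ⊆ N` let `M i` be the
subgroup of `G` generated by the `x i`, `x ∈ s`; it fixes a vertex `v i` by TLE, so `Π M i` is in `InL` by
QFO; `S s = {x ∈ N | ∀ i, (x i : G) ∈ M i}` embeds in it. -/
def QPT_stmt : Prop := ∀ (G V : Type u) [Group G] [MulAction G V] (Γ : SimpleGraph V),
  TreeAct G V Γ → Finite (MulAction.orbitRel.Quotient G V) →
  (∀ v : V, QP (MulAction.stabilizer G v)) → QP G

/-- EPW, from HPR, TRF, EBA, ESB: let `B ≤ (I → G)`, `a ∈ B` left Engel in `B`, `B_i` the image of `B` under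
evaluation at `i`.  `a i` is left Engel in `B_i`, so it is in `HP B_i` by `E G`.  Let `H_i ≤ G` be the image of
`HP B_i`; `M = {b ∈ B | ∀ i, b i ∈ H_i}` is normal in `B`, embeds in `Π H_i`, so it is in `InL` by `QP G`,
and contains `a`.  So `a ∈ HP M` (EBA, ESB (3)), and `HP M` is characteristic in `M`, so its image in `B` is
normal and locally nilpotent, contained in `HP B`. -/
def EPW_stmt : Prop := ∀ (G : Type u) [Group G] (I : Type u), QP G → E G → E (I → G)

/-- INC, from GLR, QPM, QPS, QPE, QPP, QPT, EPW, EBA, ESB, EEX, ETR: induction. -/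
def INC_stmt : Prop := ∀ (G : Type u) [Group G], InC G → QP G ∧ E G

/-- CFI, from CPW, EPW, ESB, HLE, HPR: (1) `E G`, ESB (3) and HLE. (2) `B` is the preimage of
`HP (ULift ℕ → G)` under the diagonal map. -/
def CFI_stmt : Prop := ∀ (G : Type u) [Group G],
  (∀ a : ULift.{u} ℕ → G, LeftEngel a → a ∈ HP (ULift.{u} ℕ → G)) →
  ∃ B : Subgroup G, (∀ a : G, a ∈ B ↔ BLE a) ∧
    ∀ a : G, a ∈ B ↔ (fun _ : ULift.{u} ℕ => a) ∈ HP (ULift.{u} ℕ → G)

end Pool.Agent.helper80.EN
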