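import Pool.Agent.helper80.EN.Spec5

set_option autoImplicit false

namespace Pool.Agent.helper80.EN

open Subgroup

universe u

theorem TLE (hTAC : TAC_stmt.{u}) (hTSE : TSE_stmt.{u}) (hTEN : TEN_stmt.{u}) (hTHU : THU_stmt.{u})
    (hLNA : LNA_stmt.{u}) (hHLE : HLE_stmt.{u}) (hHPR : HPR_stmt.{u}) (hTRF : TRF_stmt.{u}) :
    TLE_stmt.{u} := by
  intro G V _ _ Γ hΓ H hH S hS
  have hactG : Act G Γ.dist := (hTAC G V Γ hΓ).1
  have hact : Act H Γ.dist := ⟨hactG.tm, fun g x y => hactG.iso g x y,
    fun g x y h1 h2 => hactG.inv g x y h1 h2⟩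
  have : Nonempty V := hΓ.tree.1.nonempty
  by_cases hell : ∀ h : H, Ell V h
  · obtain ⟨v, hv⟩ := (hTSE H V Γ.dist hact).2 hell S
    exact ⟨v, fun s hs => hv s hs⟩
  · push Not at hell
    obtain ⟨z, hz⟩ := hell
    have hmap : (⊤ : Subgroup H).map H.subtype = H := by
      rw [← MonoidHom.range_eq_map, Subgroup.range_subtype]
    have htop : LocNilp (⊤ : Subgroup H) := by
      refine ((hTRF G).2.2.2.2.2.2 H ⊤).2 ?_
      rw [hmap]
      exact hH
    have hzHP : z ∈ HP H :=
      (hHPR H).2.2.1 ⊤ inferInstance htop (Subgroup.mem_top z)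
    have hzE : LeftEngel z := hHLE H z hzHP
    have hinv : ∀ (g : H), ∀ x ∈ Ax Γ.dist z, g • x ∈ Ax Γ.dist z := by
      intro g x hx
      obtain ⟨n, hn⟩ := hzE g
      exact (hTEN H V Γ.dist hact g z n hn hz x hx).1
    obtain ⟨f, hf, hfr⟩ := (hTHU H V Γ.dist hact).1 z hz
    rw [← hfr] at hinv
    have hinj : Function.Injective f := by
      intro m n h
      have h1 := hf m n
      rw [h, (hact.tm.eq (f n) (f n)).2 rfl] at h1
      have h2 : |m - n| = 0 := by simpa using h1.symm
      exact sub_eq_zero.1 (abs_eq_zero.1 h2)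
    have key : ∀ g : H, ∃ ε t : ℤ, (ε = 1 ∨ ε = -1) ∧ ∀ n, g • f n = f (ε * n + t) := by
      intro g
      have hp : Par Γ.dist (fun n => g • f n) := by
        intro m n
        show (Γ.dist (g • f m) (g • f n) : ℤ) = |m - n|
        rw [hact.iso]; exact hf m n
      refine (hLNA V Γ.dist hact.tm).2.1 _ f hp hf ?_
      intro n
      obtain ⟨m, hm⟩ := hinv g (f n) ⟨n, rfl⟩
      exact ⟨m, hm.symm⟩
    choose ε t hε ht using key
    have hu : ∀ (g : H) (a b : ℤ), (∀ n, g • f n = f (a * n + b)) → ε g = a ∧ t g = b := by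
      intro g a b h
      have h0 := hinj ((ht g 0).symm.trans (h 0))
      have h1 := hinj ((ht g 1).symm.trans (h 1))
      constructor <;> linarith
    have hone : ε 1 = 1 ∧ t 1 = 0 := hu 1 1 0 (fun n => by simp)
    have hmul : ∀ g h, ε (g * h) = ε g * ε h ∧ t (g * h) = ε g * t h + t g := fun g h =>
      hu (g * h) _ _ (fun n => by
        rw [mul_smul, ht h, ht g]
        congr 1
        ring)
    have hsq : ∀ g, ε g * ε g = 1 := by
      intro g
      rcases hε g with h | h <;> rw [h] <;> norm_num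
    have hinvε : ∀ g, ε g⁻¹ = ε g := by
      intro g
      have h1 := (hmul g g⁻¹).1
      rw [mul_inv_cancel, hone.1] at h1
      have h2 := hsq g
      rcases hε g with h | h
      · rw [h] at h1 ⊢; linarith
      · rw [h] at h1 ⊢; linarith
    have hinvt : ∀ g, ε g = 1 → t g⁻¹ = - t g := by
      intro g hg
      have h1 := (hmul g g⁻¹).2
      rw [mul_inv_cancel, hone.2, hg] at h1
      linarith
    let E1 : Subgroup H :=
      { carrier := {g | ε g = 1}
        mul_mem' := fun {a b} ha hb => by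
          show ε (a * b) = 1
          rw [(hmul a b).1, show ε a = 1 from ha, show ε b = 1 from hb, one_mul]
        one_mem' := hone.1
        inv_mem' := fun {a} ha => by
          show ε a⁻¹ = 1
          rw [hinvε]; exact ha }
    have hD1 : derivedSeries H 1 ≤ E1 := by
      rw [derivedSeries_succ, derivedSeries_zero, Subgroup.commutator_le]
      intro a _ b _
      show ε (a * b * a⁻¹ * b⁻¹) = 1
      rw [(hmul _ _).1, (hmul _ _).1, (hmul _ _).1, hinvε, hinvε]
      calc ε a * ε b * ε a * ε b = (ε a * ε a) * (ε b * ε b) := by ring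
        _ = 1 := by rw [hsq, hsq, one_mul]
    have h2 : derivedSeries H 2 ≤ MulAction.stabilizer H (f 0) := by
      rw [show (2 : ℕ) = 1 + 1 from rfl, derivedSeries_succ, Subgroup.commutator_le]
      intro a ha b hb
      have ha1 : ε a = 1 := hD1 ha
      have hb1 : ε b = 1 := hD1 hb
      rw [MulAction.mem_stabilizer_iff, ht]
      congr 1
      show ε (a * b * a⁻¹ * b⁻¹) * 0 + t (a * b * a⁻¹ * b⁻¹) = 0
      rw [mul_zero, zero_add, (hmul _ _).2, (hmul _ _).2, (hmul _ _).2, (hmul _ _).1, (hmul _ _).1,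
        hinvε, hinvt a ha1, hinvt b hb1, ha1, hb1]
      ring
    exact ⟨f 0, fun s hs => h2 (hS s hs)⟩

end Pool.Agent.helper80.EN
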