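import Pool.Agent.helper80.EN.Spec5

set_option autoImplicit false

namespace Pool.Agent.helper80.EN

open Subgroup

universe u

lemma UBR_pi {G : Type u} [Group G] {I : Type u} {H : Subgroup G} (hH : H.IsSubnormal) :
    (Subgroup.pi Set.univ fun _ : I => H).IsSubnormal := by
  induction hH with
  | top =>
    have h1 : (Subgroup.pi Set.univ fun _ : I => (⊤ : Subgroup G)) = ⊤ := by
      ext x
      simp [Subgroup.mem_pi]
    rw [h1]
    exact Subgroup.IsSubnormal.top
  | step H K hle _ hN ih =>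
    refine Subgroup.IsSubnormal.step _ _ ?_ ih ?_
    · intro x hx i hi
      exact hle (hx i hi)
    · refine ⟨fun n hn g => ?_⟩
      rw [Subgroup.mem_subgroupOf] at hn ⊢
      intro i hi
      have h1 : (n : I → G) i ∈ H := hn i hi
      have h2 : (n : I → G) i ∈ K := hle h1
      have h3 : (g : I → G) i ∈ K := g.2 i hi
      have h4 := hN.conj_mem ⟨(n : I → G) i, h2⟩ (Subgroup.mem_subgroupOf.2 h1) ⟨(g : I → G) i, h3⟩
      exact Subgroup.mem_subgroupOf.1 h4

theorem UBR (hSNB : SNB_stmt.{u}) (G : Type u) [Group G] (a : G) (ha : (zpowers a).IsSubnormal) :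
    (fun _ : ULift.{u} ℕ => a) ∈ HP (ULift.{u} ℕ → G) := by
  refine hSNB _ _ (UBR_pi (I := ULift.{u} ℕ) ha) ?_ (fun i _ => Subgroup.mem_zpowers a)
  intro K _ hK
  have hc : ∀ x y : K, x * y = y * x := by
    intro x y
    refine Subtype.ext (funext fun i => ?_)
    obtain ⟨m, hm⟩ := hK x.2 i (Set.mem_univ i)
    obtain ⟨n, hn⟩ := hK y.2 i (Set.mem_univ i)
    show (x : ULift.{u} ℕ → G) i * (y : ULift.{u} ℕ → G) i =
      (y : ULift.{u} ℕ → G) i * (x : ULift.{u} ℕ → G) i
    rw [← hm, ← hn]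
    show a ^ m * a ^ n = a ^ n * a ^ m
    rw [← zpow_add, ← zpow_add, add_comm]
  let _ : CommGroup K := { (inferInstance : Group K) with mul_comm := hc }
  exact CommGroup.isNilpotent

end Pool.Agent.helper80.EN
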