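import Pool.Agent.helper80.EN.Asm3
import Pool.Agent.helper80.EN.Spec5
import Pool.Agent.helper80.EN.CPW
import Pool.Agent.helper80.EN.UBR
import Pool.Agent.helper80.EN.PRD
import Pool.Agent.helper80.EN.QPA
import Pool.Agent.helper80.EN.TLE
import Pool.Agent.helper80.EN.INC
import Pool.Agent.helper75.EN.GLK
import Pool.Agent.helper55.EN.GLN
import Pool.Agent.helper97.EN.GLR
import Pool.Agent.helper42.EN.QFO
import Pool.Agent.helper94.EN.EPW
import Pool.Agent.helper80.EN.QPT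

set_option autoImplicit false

/-! # Assembly of the rows, part 4 -/

namespace Pool.Agent.helper80.EN.Asm

open Pool.Agent.helper80.EN

universe u

theorem aCPW : CPW_stmt.{u} := CPW
theorem aCFI : CFI_stmt.{u} := CFI aCPW aHLE
theorem aPRD : PRD_stmt.{u} := PRD
theorem aGLK : GLK_stmt.{u} := GLK
theorem aGLN : GLN_stmt.{u} := GLN aGLK aPRD aLNI
theorem aGLR : GLR_stmt.{u} := GLR aGLN
theorem aQPM : QPM_stmt.{u} := QPM aGLR
theorem aQPS : QPS_stmt.{u} := QPS aTRF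
theorem aQPE : QPE_stmt.{u} := QPE aTRF aPRD
theorem aQPP : QPP_stmt.{u} := QPP aTRF
theorem aTLE : TLE_stmt.{u} := TLE aTAC aTSE aTEN aTHU aLNA aHLE aHPR aTRF
theorem aQFO : QFO_stmt.{u} := QFO aPRD aTRF
theorem aQPT : QPT_stmt.{u} := QPT_own aTLE aQFO aPRD aLNI aTRF
theorem aEPW : EPW_stmt.{u} := EPW aHPR aTRF aEBA aESB
theorem aINC : INC_stmt.{u} := INC_own aGLR aQPM aQPS aQPE aQPP aQPT aEPW aEBA aESB aEEX aETR

end Pool.Agent.helper80.EN.Asm
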