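import Pool.Agent.helper80.EN.CPW
import Pool.Agent.helper19.EN.HLE

set_option autoImplicit false

namespace Pool.Agent.helper80.EN

open Subgroup

universe u

/-- The set of left Engel elements is a union of cosets of the Hirsch-Plotkin radical. -/
theorem COS (hHPR : HPR_stmt.{u}) (hBAS : BAS_stmt.{u}) (hNAE : NAE_stmt.{u}) (G : Type u) [Group G]
    (h b : G) (hh : h ∈ HP G) (hb : LeftEngel b) : LeftEngel (h * b) := by
  classical
  intro x
  obtain ⟨hN, hL, -, -⟩ := hHPR G
  obtain ⟨-, hmap, hadd, -, -⟩ := hBAS G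
  obtain ⟨n, hn⟩ := hb x
  have h1 : icom x (h * b) n ∈ HP G := by
    rw [← QuotientGroup.eq_one_iff]
    have e1 : QuotientGroup.mk' (HP G) (h * b) = QuotientGroup.mk' (HP G) b := by
      have e0 : QuotientGroup.mk' (HP G) h = 1 := (QuotientGroup.eq_one_iff h).2 hh
      rw [map_mul, e0, one_mul]
    have e2 := hmap (G ⧸ HP G) (QuotientGroup.mk' (HP G)) x (h * b) n
    have e3 := hmap (G ⧸ HP G) (QuotientGroup.mk' (HP G)) x b n
    rw [e1, ← e3, hn, map_one] at e2
    exact e2
  have hloc := hNAE G (HP G) b hN hL fun y _ => hb y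
  have hK : closure (({icom x (h * b) n, h * b} : Finset G) : Set G) ≤ HP G ⊔ zpowers b := by
    rw [closure_le]
    intro y hy
    have hy' : y = icom x (h * b) n ∨ y = h * b := by
      simpa using hy
    rcases hy' with rfl | rfl
    · exact (le_sup_left : HP G ≤ HP G ⊔ zpowers b) h1
    · exact mul_mem ((le_sup_left : HP G ≤ HP G ⊔ zpowers b) hh)
        ((le_sup_right : zpowers b ≤ HP G ⊔ zpowers b) (mem_zpowers b))
  have hnil := hloc _ ⟨{icom x (h * b) n, h * b}, rfl⟩ hK
  rw [isNilpotent_iff_lowerCentralSeries] at hnil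
  obtain ⟨m, hm⟩ := hnil
  refine ⟨n + m, ?_⟩
  rw [hadd]
  have hm' := icom_mem_lowerCentralSeries _ (icom x (h * b) n) (h * b)
    (subset_closure (by simp : icom x (h * b) n ∈ (({icom x (h * b) n, h * b} : Finset G) : Set G)))
    (subset_closure (by simp : h * b ∈ (({icom x (h * b) n, h * b} : Finset G) : Set G))) m
  rw [hm, mem_bot] at hm'
  exact hm'

/-- The set of bounded left Engel elements is a union of cosets of the subgroup `U`. -/
theorem COB (hCPW : CPW_stmt.{u}) (hHPR : HPR_stmt.{u}) (hBAS : BAS_stmt.{u}) (hNAE : NAE_stmt.{u})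
    (G : Type u) [Group G] (h b : G) (hh : (fun _ : ULift.{u} ℕ => h) ∈ HP (ULift.{u} ℕ → G))
    (hb : BLE b) : BLE (h * b) := by
  rw [hCPW]
  exact COS hHPR hBAS hNAE (ULift.{u} ℕ → G) (fun _ => h) (fun _ => b) hh ((hCPW G b).1 hb)

end Pool.Agent.helper80.EN
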