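import Pool.Agent.helper80.EN.Spec5

set_option autoImplicit false

namespace Pool.Agent.helper80.EN

open Subgroup

universe u

/-- For every `r` there is `c` such that any `r` conjugates of `a` generate a nilpotent subgroup of
class at most `c`. -/
def UN {G : Type u} [Group G] (a : G) : Prop := ∀ r : ℕ, ∃ c : ℕ, ∀ S : Finset G, S.card ≤ r →
  (closure {x : G | ∃ g ∈ S, x = g⁻¹ * a * g}).lowerCentralSeries c = ⊥

theorem UNI (hCNC : CNC_stmt.{u}) (hHPR : HPR_stmt.{u}) (G : Type u) [Group G] (a : G) :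
    (fun _ : ULift.{u} ℕ => a) ∈ HP (ULift.{u} ℕ → G) ↔ UN a := by
  classical
  constructor
  · intro ha r
    by_contra hc
    push Not at hc
    choose S hS hne using hc
    -- enumerate each `S c` by `Fin r`
    have he : ∀ c, ∃ g : Fin r → G, ∀ x ∈ S c, ∃ i, g i = x := by
      intro c
      have h1 : Fintype.card (S c) ≤ Fintype.card (Fin r) := by
        rw [Fintype.card_coe, Fintype.card_fin]; exact hS c
      obtain ⟨e⟩ := Function.Embedding.nonempty_of_card_le h1
      refine ⟨fun i => if h : ∃ x : S c, e x = i then (Classical.choose h : S c).1 else 1, ?_⟩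
      intro x hx
      refine ⟨e ⟨x, hx⟩, ?_⟩
      have h2 : ∃ y : S c, e y = e ⟨x, hx⟩ := ⟨_, rfl⟩
      simp only [dif_pos h2]
      have h3 := e.injective (Classical.choose_spec h2)
      rw [h3]
    choose g hg using he
    let T : Finset (ULift.{u} ℕ → G) := Finset.univ.image fun (i : Fin r) (c : ULift.{u} ℕ) => g c.down i
    let A : ULift.{u} ℕ → G := fun _ => a
    let C : Finset (ULift.{u} ℕ → G) := T.image fun t => t⁻¹ * A * t
    have hCle : closure (C : Set (ULift.{u} ℕ → G)) ≤ HP (ULift.{u} ℕ → G) := by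
      rw [closure_le]
      intro x hx
      obtain ⟨t, _, rfl⟩ := Finset.mem_image.1 (Finset.mem_coe.1 hx)
      have h1 := (hHPR (ULift.{u} ℕ → G)).1.conj_mem A ha t⁻¹
      rw [inv_inv] at h1
      exact h1
    have hnil := (hHPR (ULift.{u} ℕ → G)).2.1 _ ⟨C, rfl⟩ hCle
    rw [isNilpotent_iff_lowerCentralSeries] at hnil
    obtain ⟨c, hcb⟩ := hnil
    apply hne c
    rw [eq_bot_iff]
    have h4 : closure {x : G | ∃ g ∈ S c, x = g⁻¹ * a * g} ≤
        (closure (C : Set (ULift.{u} ℕ → G))).map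
          (Pi.evalMonoidHom (fun _ : ULift.{u} ℕ => G) (ULift.up c)) := by
      rw [closure_le]
      rintro x ⟨y, hy, rfl⟩
      obtain ⟨i, rfl⟩ := hg c y hy
      refine ⟨(fun d : ULift.{u} ℕ => g d.down i)⁻¹ * A * (fun d : ULift.{u} ℕ => g d.down i),
        subset_closure ?_, rfl⟩
      exact Finset.mem_coe.2 (Finset.mem_image.2 ⟨_, Finset.mem_image.2 ⟨i, Finset.mem_univ i, rfl⟩,
        rfl⟩)
    refine (lowerCentralSeries_mono c h4).trans ?_
    beta_reduce
    rw [← map_lowerCentralSeries, hcb, Subgroup.map_bot]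
  · intro ha
    refine hCNC _ _ fun T => ?_
    obtain ⟨c, hc⟩ := ha T.card
    rw [isNilpotent_iff_lowerCentralSeries]
    refine ⟨c, ?_⟩
    rw [eq_bot_iff]
    intro x hx
    rw [mem_bot]
    funext i
    have h1 : x i ∈ ((closure {x : ULift.{u} ℕ → G | ∃ g ∈ T, x = g⁻¹ * (fun _ => a) * g}).map
        (Pi.evalMonoidHom (fun _ : ULift.{u} ℕ => G) i)).lowerCentralSeries c := by
      rw [← map_lowerCentralSeries]
      exact ⟨x, hx, rfl⟩
    have h2 : (closure {x : ULift.{u} ℕ → G | ∃ g ∈ T, x = g⁻¹ * (fun _ => a) * g}).map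
        (Pi.evalMonoidHom (fun _ : ULift.{u} ℕ => G) i) ≤
        closure {x : G | ∃ g ∈ T.image (fun t => t i), x = g⁻¹ * a * g} := by
      rw [map_le_iff_le_comap, closure_le]
      rintro x ⟨g, hg, rfl⟩
      exact subset_closure ⟨g i, Finset.mem_image_of_mem _ hg, rfl⟩
    have h3 := lowerCentralSeries_mono c h2 h1
    beta_reduce at h3
    rw [hc _ Finset.card_image_le, mem_bot] at h3
    exact h3

end Pool.Agent.helper80.EN
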