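import Pool.Agent.helper80.EN.Asm4
import Pool.Agent.helper80.EN.COS
import Pool.Agent.helper80.EN.UNI

set_option autoImplicit false

/-! # Assembly of the rows, part 5: uniformly Engel elements -/

namespace Pool.Agent.helper80.EN.Asm

open Pool.Agent.helper80.EN Subgroup

universe u

/-- The facts about the subgroup of the elements `a` with constant sequence in the Hirsch-Plotkin
radical of the Cartesian power. -/
theorem uniform (G : Type u) [Group G] : ∃ B : Subgroup G, (∀ a : G, a ∈ B ↔ UN a) ∧ B.Normal ∧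
    (∀ a : G, (zpowers a).IsSubnormal → a ∈ B) ∧ (∀ a ∈ B, BLE a ∧ a ∈ HP G) ∧
    (∀ a ∈ B, ∀ b : G, BLE b → BLE (a * b) ∧ BLE (b * a)) ∧
    ((∀ x : ULift.{u} ℕ → G, BLE x → x ∈ HP (ULift.{u} ℕ → G)) → ∀ a : G, BLE a → a ∈ B) := by
  let δ : G →* (ULift.{u} ℕ → G) :=
    { toFun := fun a _ => a
      map_one' := rfl
      map_mul' := fun _ _ => rfl }
  have hn : (HP (ULift.{u} ℕ → G)).Normal := (aHPR (ULift.{u} ℕ → G)).1
  have hB : ((HP (ULift.{u} ℕ → G)).comap δ).Normal := hn.comap δ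
  have key : ∀ a ∈ (HP (ULift.{u} ℕ → G)).comap δ, ∀ b : G, BLE b → BLE (a * b) :=
    fun a ha b hb => COB aCPW aHPR aBAS aNAE G a b ha hb
  refine ⟨(HP (ULift.{u} ℕ → G)).comap δ, UNI aCNC aHPR G, hB, UBR aSNB G, fun a ha => ⟨?_, ?_⟩,
    fun a ha b hb => ⟨key a ha b hb, ?_⟩, ?_⟩
  · exact (aCPW G a).2 (aHLE _ _ ha)
  · have h1 := (UNI aCNC aHPR G a).1 ha
    refine aCNC G a fun S => ?_
    obtain ⟨c, hc⟩ := h1 S.card
    rw [isNilpotent_iff_lowerCentralSeries]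
    exact ⟨c, hc S le_rfl⟩
  · have h1 : b * a = (b * a * b⁻¹) * b := by group
    rw [h1]
    exact key _ (hB.conj_mem a ha b) b hb
  · rintro h a ⟨n, hn⟩
    exact h (δ a) ⟨n, fun x => funext fun i => (CPW_icom x (δ a) n i).trans (hn (x i))⟩

end Pool.Agent.helper80.EN.Asm
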