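import Pool.Agent.helper80.EN.Spec5

set_option autoImplicit false

namespace Pool.Agent.helper80.EN

open Subgroup

universe u

theorem QPT_own (h1 : TLE_stmt.{u}) (h2 : QFO_stmt.{u}) (h3 : PRD_stmt.{u}) (h4 : LNI_stmt.{u})
    (h5 : TRF_stmt.{u}) : QPT_stmt.{u} := by
  classical
  intro G V _ _ Γ hΓ hfin hQ I K hK
  let φ : ((i : I) → K i) →* ((i : I) → K i ⧸ derivedSeries (K i) 2) :=
    { toFun := fun x i => QuotientGroup.mk' (derivedSeries (K i) 2) (x i)
      map_one' := rfl
      map_mul' := fun _ _ => rfl }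
  have hsol : Group.IsSolvable ((i : I) → K i ⧸ derivedSeries (K i) 2) := by
    refine ⟨⟨2, ?_⟩⟩
    rw [eq_bot_iff]
    intro x hx
    rw [Subgroup.mem_bot]
    funext i
    have e1 : Pi.evalMonoidHom (fun i => K i ⧸ derivedSeries (K i) 2) i x ∈
        derivedSeries (K i ⧸ derivedSeries (K i) 2) 2 :=
      map_derivedSeries_le_derivedSeries _ 2 (Subgroup.mem_map_of_mem _ hx)
    have e2 : derivedSeries (K i ⧸ derivedSeries (K i) 2) 2 = ⊥ := by
      rw [← map_derivedSeries_eq (f := QuotientGroup.mk' (derivedSeries (K i) 2))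
        (QuotientGroup.mk'_surjective _) 2]
      rw [Subgroup.map_eq_bot_iff, QuotientGroup.ker_mk']
    rw [e2, Subgroup.mem_bot] at e1
    exact e1
  have hker : ∀ x : φ.ker, ∀ i, x.1 i ∈ derivedSeries (K i) 2 := by
    intro x i
    have e1 : QuotientGroup.mk' (derivedSeries (K i) 2) (x.1 i) = 1 := congrFun x.2 i
    rw [← QuotientGroup.eq_one_iff]
    exact e1
  refine h3.1 _ _ φ ?_ ((h4 _).1 hsol)
  -- the kernel
  let M : Finset φ.ker → I → Subgroup G := fun s i =>
    Subgroup.closure {g : G | ∃ x ∈ s, g = (x.1 i : G)}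
  let S : Finset φ.ker → Subgroup φ.ker := fun s =>
    { carrier := {x | ∀ i, (x.1 i : G) ∈ M s i}
      mul_mem' := fun {a b} ha hb i => (M s i).mul_mem (ha i) (hb i)
      one_mem' := fun i => (M s i).one_mem
      inv_mem' := fun {a} ha i => (M s i).inv_mem (ha i) }
  refine InL.union S (fun s x hx i => Subgroup.subset_closure ⟨x, hx, rfl⟩) fun s => ?_
  have hv : ∀ i, ∃ v : V, ∀ x ∈ s, ((x.1 i : K i) : G) • v = v := by
    intro i
    obtain ⟨v, hv⟩ := h1 G V Γ hΓ (K i) (hK i) (s.image fun x => x.1 i) (by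
      intro y hy
      obtain ⟨x, _, rfl⟩ := Finset.mem_image.1 hy
      exact hker x i)
    exact ⟨v, fun x hx => hv _ (Finset.mem_image_of_mem _ hx)⟩
  choose v hv using hv
  have hMK : ∀ i, M s i ≤ K i := by
    intro i
    refine (Subgroup.closure_le _).2 ?_
    rintro _ ⟨x, _, rfl⟩
    exact (x.1 i).2
  have hMv : ∀ i, M s i ≤ MulAction.stabilizer G (v i) := by
    intro i
    refine (Subgroup.closure_le _).2 ?_
    rintro _ ⟨x, hx, rfl⟩
    exact hv i x hx
  have hL := h2 G V hfin hQ I v (M s) (fun i => (h5 G).1 _ _ (hMK i) (hK i)) hMv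
  let ψ : S s →* ((i : I) → M s i) :=
    { toFun := fun x i => ⟨(x.1.1 i : G), x.2 i⟩
      map_one' := rfl
      map_mul' := fun _ _ => rfl }
  refine InL.sub ψ ?_ hL
  intro x y hxy
  refine Subtype.ext (Subtype.ext (funext fun i => Subtype.ext ?_))
  have e1 : ψ x i = ψ y i := congrFun hxy i
  have e2 : ((ψ x i : M s i) : G) = ((ψ y i : M s i) : G) := by rw [e1]
  exact e2

end Pool.Agent.helper80.EN
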