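import Pool.Agent.helper80.EN.Spec2

/-!
# Bounded left Engel elements (MP_202db4_al): definitions and row statements

THEOREM.  (1) For `G` in `InT` an element is bounded left Engel in `G` if and only if it is in `HP G`
and bounded left Engel in `HP G`.  (2) If moreover `HP G` is solvable then the bounded left Engel
elements are the elements that generate a subnormal subgroup, and they form a subgroup.  (3) This
holds for all polylinear groups.
-/

set_option autoImplicit false

namespace Pool.Agent.helper80.EN

open Subgroup

universe u

/-- `a` is a bounded left Engel element: for some `n`, `[x, _n a] = 1` for all `x`. -/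
def BLE {G : Type u} [Group G] (a : G) : Prop := ∃ n : ℕ, ∀ x : G, icom x a n = 1

/-- Subnormal of defect at most `s`, from the top down. -/
def SubnD : (s : ℕ) → (G : Type u) → [Group G] → Subgroup G → Prop
  | 0, _, _, H => H = ⊤
  | s + 1, G, _, H => ∃ N : Subgroup G, N.Normal ∧ H ≤ N ∧ SubnD s N (H.subgroupOf N)

/-- Polylinear groups: the smallest class of groups that contains the linear groups and is closed
under subgroups and extensions. -/
inductive PolyLin : (G : Type u) → [Group G] → Prop
  | linear {G : Type u} [Group G] (F : Type u) [Field F] (n : ℕ) (f : G →* GL (Fin n) F)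
      (hf : Function.Injective f) : PolyLin G
  | sub {G H : Type u} [Group G] [Group H] (f : G →* H) (hf : Function.Injective f)
      (h : PolyLin H) : PolyLin G
  | ext {G : Type u} [Group G] (N : Subgroup G) [N.Normal] (h1 : PolyLin N)
      (h2 : PolyLin (G ⧸ N)) : PolyLin G

/-! ## Row statements -/

/-- SBE: elements that generate a subnormal subgroup are bounded left Engel.  Proof: for `H` subnormal
there is `n` with `icom x a n ∈ H` for all `x` and all `a ∈ H` (induction on `IsSubnormal`: in the step
`icom x a n = k ∈ K` and `com k a = k⁻¹ a⁻¹ k a ∈ H` as `H` is normal in `K`).  Elements of `<a>` commute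
with `a`. -/
def SBE_stmt : Prop := ∀ (G : Type u) [Group G] (a : G), (zpowers a).IsSubnormal → BLE a

/-- GBS (Gruenberg): in a solvable group bounded left Engel elements generate subnormal subgroups.
Proof: induction on `d` with `derivedSeries G d = ⊥`.  `A = derivedSeries G (d - 1)` is abelian and
normal; in `G/A` the image of `a` generates a subnormal subgroup, so `A ⊔ zpowers a` is subnormal (it
is the comap, `IsSubnormal.comap`).  On `A` the map `x ↦ com x a` is an endomorphism `δ`, and
`icom x a n = 1`.  `A_i = {icom x a i | x ∈ A}` is a subgroup (image of `δ^i`), normalised by `A` (abelian)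
and `a`; `A_(i+1) ⊔ zpowers a` is normal in `A_i ⊔ zpowers a` because `x⁻¹ a x = a (com x a)⁻¹` for
`x ∈ A`.  `A_n = ⊥`. -/
def GBS_stmt : Prop := ∀ (G : Type u) [Group G] (a : G), Group.IsSolvable G → BLE a →
  (zpowers a).IsSubnormal

/-- SDA: `SubnD`. (1) by induction on `s`: `H ⊴ K`, `SubnD s G K` imply `SubnD (s+1) G H` (for `s = 0` take
`N = H`); then induction on `IsSubnormal`. (2) induction, `IsSubnormal.trans` and `Normal.isSubnormal`.
(3) isomorphisms, in particular (4) conjugates. -/
def SDA_stmt : Prop :=
  (∀ (G : Type u) [Group G] (H : Subgroup G), H.IsSubnormal → ∃ s, SubnD s G H) ∧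
  (∀ (s : ℕ) (G : Type u) [Group G] (H : Subgroup G), SubnD s G H → H.IsSubnormal) ∧
  (∀ (s : ℕ) (G G' : Type u) [Group G] [Group G'] (e : G ≃* G') (H : Subgroup G), SubnD s G H →
    SubnD s G' (H.map e.toMonoidHom)) ∧
  (∀ (s : ℕ) (G : Type u) [Group G] (N : Subgroup G) (H : Subgroup G) (g : G), N.Normal → H ≤ N →
    SubnD s N (H.subgroupOf N) →
    SubnD s N ((H.map (MulAut.conj g).toMonoidHom).subgroupOf N))

/-- JFN (Baer), from SDA, JSN, SNB, HPR, TRF: the join of two finitely generated nilpotent subnormal
subgroups is subnormal.  Proof: by induction on `s` the following: for all `G`, if `SubnD s G H`, `K` is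
subnormal, both finitely generated and nilpotent, then `H ⊔ K` is subnormal.  `s = 0` is trivial.
`s + 1`: let `H ≤ N`, `N` normal, `SubnD s N (H.subgroupOf N)`.  `J = H ⊔ K` is finitely generated and
contained in `HP G` (SNB), so nilpotent, so all its subgroups are finitely generated
(Pool/Agent/helper14/FA/MaxCond.lean).  Let `L` be the subgroup generated by the conjugates of `H` by
elements of `J`; `L ≤ J ⊓ N`, `L` is finitely generated, so `L` is generated by finitely many conjugates
`H^(j_1), ..., H^(j_r)`.  By SDA (4) and the induction hypothesis in `N`, by induction on `r`, their join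
is subnormal in `N` (a join of finitely generated subgroups of the nilpotent group `J` is finitely
generated and nilpotent), so subnormal in `G`.  `K` normalises `L`, so `L ⊔ K = H ⊔ K` is subnormal by
JSN. -/
def JFN_stmt : Prop := ∀ (G : Type u) [Group G] (H K : Subgroup G), H.IsSubnormal →
  K.IsSubnormal → H.FG → K.FG → Group.IsNilpotent H → Group.IsNilpotent K → (H ⊔ K).IsSubnormal

/-- BSG, from SBE, GBS, JFN, SNB, HPR, TRF (and GRU_subnormal in helper24/EN/GRU.lean: all subgroups of
a nilpotent group are subnormal).  If all bounded left Engel elements of `G` are in `HP G` and `HP G`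
is solvable: `BLE a` implies that `<a>` is subnormal in `HP G` (GBS; `HP G` is normal), so in `G`.
Products: `J = <a> ⊔ <b>` is subnormal (JFN), finitely generated, in `HP G`, so nilpotent, so `<a b>` is
subnormal in `J`. -/
def BSG_stmt : Prop := ∀ (G : Type u) [Group G], (∀ a : G, BLE a → a ∈ HP G) →
  Group.IsSolvable (HP G) →
  (∀ a : G, BLE a ↔ (zpowers a).IsSubnormal) ∧ ∃ B : Subgroup G, ∀ a : G, a ∈ B ↔ BLE a

/-- LEQ, from ETF, ESB, HPR: (1) bounded left Engel elements are left Engel, so in `HP G`, and the condition
passes to subgroups.  (2) if `[x, _n a] = 1` for all `x ∈ HP G` then `com x a ∈ HP G` for all `x ∈ G`, so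
`icom x a (n + 1) = icom (com x a) a n = 1`. -/
def LEQ_stmt : Prop := ∀ (G : Type u) [Group G], InT G →
  (∀ a : G, BLE a → ∃ h : a ∈ HP G, BLE (⟨a, h⟩ : HP G)) ∧
  (∀ a : HP G, BLE a → BLE (a : G))

/-- LDS: local derived length. Proof: every element of `derivedSeries H d` is in the image of
`derivedSeries K d` for some finitely generated `K ≤ H` (induction on `d`, `closure_induction`; for
two elements take the join, and `derivedSeries` is monotone along homomorphisms:
`map_derivedSeries_le_derivedSeries`). -/
def LDS_stmt : Prop := ∀ (G : Type u) [Group G] (H : Subgroup G) (d : ℕ),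
  (∀ K : Subgroup G, K.FG → K ≤ H → derivedSeries K d = ⊥) → derivedSeries H d = ⊥

/-- PSO, from NLN, FGL, LDS, TRF: locally nilpotent subgroups of polylinear groups are solvable.
linear: `H.map f` is locally nilpotent in `GL (Fin n) F`; for a finitely generated `K` in it and
`b ∈ derivedSeries K d`, `b ≠ 1` (`d` from NLN) FGL gives `ρ : K →* GL (Fin n) k`, `k` finite, `ρ b ≠ 1`; the
image is finite and nilpotent, so its `d`-th derived group is trivial: contradiction.  LDS.
ext: `H ⊓ N` and the image of `H` in `G ⧸ N` are locally nilpotent, so solvable. -/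
def PSO_stmt : Prop := ∀ (G : Type u) [Group G], PolyLin G → ∀ H : Subgroup G, LocNilp H →
  Group.IsSolvable H

end Pool.Agent.helper80.EN
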